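import Pool.Agent.TH143.HE.RSpec

/-!
Entire curves, rational curves and rational points on projective varieties over number fields, and
points whose coordinates are short sums of units: definitions.
-/

set_option autoImplicit false

namespace Pool.Agent.Y719.SU

open MvPolynomial Height
open scoped LinearAlgebra.Projectivization
open Pool.Agent.TH143.HE (RCur)

/-- The point with the homogeneous coordinates `x` is a zero of all forms in the ideal `I`. -/
def OnI {R A : Type} [CommRing R] [CommRing A] {N : ℕ} (φ : R →+* A)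
    (I : Ideal (MvPolynomial (Fin (N + 1)) R)) (x : Fin (N + 1) → A) : Prop :=
  ∀ G ∈ I, (∃ d, G.IsHomogeneous d) → eval₂ φ x G = 0

variable {K : Type} [Field K] [NumberField K] {N : ℕ}

/-- All nonconstant entire curves in `X_σ`, given by entire functions without common zeros, lie in
`Z_σ`. Here `X` and `Z` are the projective varieties given by the forms in `I` and in `I'`. For
`I' = ⊤` the variety `Z` is empty, and the condition is the hyperbolicity of `X_σ`. -/
def Hyperbolic (σ : K →+* ℂ) (I I' : Ideal (MvPolynomial (Fin (N + 1)) K)) : Prop :=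
  ∀ f : ℂ → Fin (N + 1) → ℂ, Differentiable ℂ f → (∀ z, f z ≠ 0) → (∀ z, OnI σ I (f z)) →
    (∃ z w, ∀ c : ℂ, f z ≠ c • f w) → ∀ z, OnI σ I' (f z)

/-- the vector `∑ exp (g_j) P_j` at `z` -/
noncomputable def esum {r : ℕ} (g : Fin r → ℂ → ℂ) (P : Fin r → Fin (N + 1) → Polynomial ℂ)
    (z : ℂ) : Fin (N + 1) → ℂ :=
  fun i => ∑ j, Complex.exp (g j z) * (P j i).eval z

/-- All nonconstant entire curves in `X_σ` with homogeneous coordinates `∑ exp (g_j) P_j`, where the
`g_j` are finitely many entire functions and the `P_j` are vectors of polynomials, lie in `Z_σ`. -/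
def ExpSum (σ : K →+* ℂ) (I I' : Ideal (MvPolynomial (Fin (N + 1)) K)) : Prop :=
  ∀ (r : ℕ) (g : Fin r → ℂ → ℂ) (P : Fin r → Fin (N + 1) → Polynomial ℂ),
    (∀ j, Differentiable ℂ (g j)) → (∀ z, OnI σ I (esum g P z)) →
    (∃ z w i k, esum g P z i * esum g P w k ≠ esum g P z k * esum g P w i) →
    ∀ z, OnI σ I' (esum g P z)

/-- There is no nonconstant map from the projective line to `X_σ` whose image is not contained in
`Z_σ`. -/
def NoRat (σ : K →+* ℂ) (I I' : Ideal (MvPolynomial (Fin (N + 1)) K)) : Prop :=
  ∀ p : Fin (N + 1) → Polynomial ℂ, ¬ RCur σ I I' p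

/-- Over all finite extensions `L` of `K` there is no nonconstant map from the projective line to `X`
whose image is not contained in `Z`. -/
def NoRatNF (I I' : Ideal (MvPolynomial (Fin (N + 1)) K)) : Prop :=
  ∀ (L : Type) [Field L] [NumberField L] [Algebra K L] (p : Fin (N + 1) → Polynomial L),
    ¬ RCur (algebraMap K L) I I' p

/-- the points of the projective variety given by the forms in `I`, with coordinates in `L` -/
def Pts (L : Type) [Field L] [Algebra K L] (I : Ideal (MvPolynomial (Fin (N + 1)) K)) :
    Set (ℙ L (Fin (N + 1) → L)) :=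
  {P | OnI (algebraMap K L) I P.rep}

/-- The set `X(L)`, without the points of `Z`, is finite for all finite extensions `L` of `K`. -/
def Finiteness (I I' : Ideal (MvPolynomial (Fin (N + 1)) K)) : Prop :=
  ∀ (L : Type) [Field L] [NumberField L] [Algebra K L], (Pts L I \ Pts L I').Finite

/-- the vector `∑ u_j v_j` -/
noncomputable def ssum {L : Type} [Field L] {r : ℕ} {Γ : Subgroup ℚˣ} (u : Fin r → Γ)
    (v : Fin r → Fin (N + 1) → L) : Fin (N + 1) → L :=
  fun i => ∑ j, (((u j : ℚˣ) : ℚ) : L) * v j i

/-- For all finite extensions `L` of `K`, all finitely generated groups `Γ` of rational numbers and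
all `r`, the height of the points of `X(L)` outside of `Z` with homogeneous coordinates
`x = ∑ u_j v_j`, where the `u_j` are `r` elements of `Γ` and the `v_j` are `r` vectors over `L`, is
at most a constant times `1` plus the height of the system of the vectors `v_j`. -/
def HtBound (I I' : Ideal (MvPolynomial (Fin (N + 1)) K)) : Prop :=
  ∀ (L : Type) [Field L] [NumberField L] [Algebra K L] (Γ : Subgroup ℚˣ), Γ.FG → ∀ r : ℕ,
    ∃ C : ℝ, ∀ (u : Fin r → Γ) (v : Fin r → Fin (N + 1) → L) (h : ssum u v ≠ 0),
      Projectivization.mk L _ h ∈ Pts L I \ Pts L I' →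
        logHeight (ssum u v) ≤ C * (1 + logHeight (fun q : Fin r × Fin (N + 1) => v q.1 q.2))

/-- For all `L`, `Γ`, `r` and `B`, only finitely many points of `X(L)` outside of `Z` have such
coordinates with vectors `v_j` of height at most `B`. -/
def FinBound (I I' : Ideal (MvPolynomial (Fin (N + 1)) K)) : Prop :=
  ∀ (L : Type) [Field L] [NumberField L] [Algebra K L] (Γ : Subgroup ℚˣ), Γ.FG →
    ∀ (r : ℕ) (B : ℝ), {P ∈ Pts L I \ Pts L I' | ∃ (u : Fin r → Γ)
      (v : Fin r → Fin (N + 1) → L) (h : ssum u v ≠ 0), P = Projectivization.mk L _ h ∧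
        logHeight (fun q : Fin r × Fin (N + 1) => v q.1 q.2) ≤ B}.Finite

end Pool.Agent.Y719.SU
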