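import Pool.Agent.TH735.QM.PolyBorel
import Pool.Agent.Y719.SU.Def

/-!
Entire curves whose coordinates are short sums of exponentials of entire functions with polynomial
coefficients.
-/

set_option autoImplicit false

namespace Pool.Agent.Y719.SU

open Filter Topology MvPolynomial
open Pool.Agent.TH143.HE (RCur eval₂_smul_homog eval₂_eval nc_iff)

/-! ### weights -/

theorem weights {V : Type} [AddCommGroup V] [Module ℚ V] {r : ℕ} (γ : Fin r → V) :
    ∃ l : Fin r → ℕ, (∀ α β : Fin r → ℕ, ∑ j, α j = ∑ j, β j →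
      ∑ j, (α j : ℚ) • γ j = ∑ j, (β j : ℚ) • γ j → ∑ j, α j * l j = ∑ j, β j * l j) ∧
      ∀ j j', l j = l j' → γ j = γ j' := by
  classical
  obtain ⟨f, hf⟩ := Module.exists_dual_forall_apply_ne_zero (K := ℚ) (M := V)
    (fun p : {p : Fin r × Fin r // γ p.1 ≠ γ p.2} => γ p.1.1 - γ p.1.2)
    (fun p => sub_ne_zero.2 p.2)
  obtain ⟨q, hq⟩ : ∃ q : Fin r → ℚ, q = fun j => f (γ j) := ⟨_, rfl⟩
  obtain ⟨D, hD⟩ : ∃ D : ℕ, D = ∏ j, (q j).den := ⟨_, rfl⟩
  have hD0 : D ≠ 0 := by
    rw [hD]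
    exact Finset.prod_ne_zero_iff.2 fun j _ => (q j).den_ne_zero
  have hD0' : (D : ℚ) ≠ 0 := by exact_mod_cast hD0
  have hc : ∀ j, ∃ c : ℤ, (c : ℚ) = D * q j := by
    intro j
    obtain ⟨e, he⟩ : (q j).den ∣ D := by
      rw [hD]
      exact Finset.dvd_prod_of_mem _ (Finset.mem_univ j)
    refine ⟨e * (q j).num, ?_⟩
    rw [he]
    push_cast
    have h2 : ((q j).num : ℚ) = q j * (q j).den := (Rat.mul_den_eq_num (q j)).symm
    rw [h2]
    ring
  choose c hc using hc
  obtain ⟨T, hT⟩ : ∃ T : ℕ, T = ∑ j, (c j).natAbs := ⟨_, rfl⟩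
  have hcT : ∀ j, 0 ≤ c j + T := by
    intro j
    have h1 : (c j).natAbs ≤ T := by
      rw [hT]
      exact Finset.single_le_sum (f := fun j => (c j).natAbs) (fun _ _ => Nat.zero_le _)
        (Finset.mem_univ j)
    omega
  refine ⟨fun j => (c j + T).toNat, ?_, ?_⟩
  · intro α β hαβ h
    have h2 := congrArg f h
    simp only [map_sum, map_smul, smul_eq_mul] at h2
    have h3 : ∑ j, ((α j : ℤ) - (β j : ℤ)) * c j = 0 := by
      have h4 : ((∑ j, ((α j : ℤ) - (β j : ℤ)) * c j : ℤ) : ℚ) =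
          D * (∑ j, (α j : ℚ) * q j - ∑ j, (β j : ℚ) * q j) := by
        push_cast
        rw [← Finset.sum_sub_distrib, Finset.mul_sum]
        refine Finset.sum_congr rfl fun j _ => ?_
        rw [hc j]
        ring
      rw [hq] at h4
      rw [h2, sub_self, mul_zero] at h4
      exact_mod_cast h4
    have h5 : ((∑ j, α j : ℕ) : ℤ) = ((∑ j, β j : ℕ) : ℤ) := by rw [hαβ]
    have h6 : ((∑ j, α j * (c j + T).toNat : ℕ) : ℤ) =
        ((∑ j, β j * (c j + T).toNat : ℕ) : ℤ) := by
      push_cast at h5 ⊢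
      have h7 : ∀ j, (((c j + (T : ℤ)).toNat : ℕ) : ℤ) = c j + T := fun j =>
        Int.toNat_of_nonneg (hcT j)
      simp only [h7]
      have h8 : ∑ j, (α j : ℤ) * (c j + T) - ∑ j, (β j : ℤ) * (c j + T) =
          ∑ j, ((α j : ℤ) - (β j : ℤ)) * c j + (∑ j, (α j : ℤ) - ∑ j, (β j : ℤ)) * T := by
        rw [← Finset.sum_sub_distrib, ← Finset.sum_sub_distrib, Finset.sum_mul,
          ← Finset.sum_add_distrib]
        refine Finset.sum_congr rfl fun j _ => ?_
        ring
      rw [h3, h5, sub_self, zero_mul, add_zero] at h8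
      linarith
    exact_mod_cast h6
  · intro j j' hl
    by_contra hcon
    have h1 : c j = c j' := by
      have h2 := hcT j
      have h3 := hcT j'
      have h4 : (c j + (T : ℤ)).toNat = (c j' + (T : ℤ)).toNat := hl
      omega
    have h2 : q j = q j' := by
      have h3 : (D : ℚ) * q j = D * q j' := by rw [← hc, ← hc, h1]
      exact mul_left_cancel₀ hD0' h3
    apply hf ⟨(j, j'), hcon⟩
    change f (γ j - γ j') = 0
    have h2' : f (γ j) = f (γ j') := by simpa [hq] using h2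
    rw [map_sub, h2', sub_self]

/-- the constant functions -/
def csts : Submodule ℚ (ℂ → ℂ) where
  carrier := {f | ∃ c, ∀ z, f z = c}
  add_mem' := by
    rintro f f' ⟨c, hc⟩ ⟨c', hc'⟩
    exact ⟨c + c', fun z => by rw [Pi.add_apply, hc, hc']⟩
  zero_mem' := ⟨0, fun _ => rfl⟩
  smul_mem' := by
    rintro a f ⟨c, hc⟩
    exact ⟨a • c, fun z => by rw [Pi.smul_apply, hc]⟩

theorem exp_weights {r : ℕ} (g : Fin r → ℂ → ℂ) :
    ∃ l : Fin r → ℕ, (∀ (α β : Fin r → ℕ) (c : ℂ), ∑ j, α j = ∑ j, β j →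
      (∀ z, ∑ j, (α j : ℂ) * g j z = ∑ j, (β j : ℂ) * g j z + c) →
      ∑ j, α j * l j = ∑ j, β j * l j) ∧
      ∀ j j', l j = l j' → ∃ c, ∀ z, g j z = g j' z + c := by
  obtain ⟨l, h1, h2⟩ := weights fun j => csts.mkQ (g j)
  refine ⟨l, fun α β c hαβ h => h1 α β hαβ ?_, fun j j' hj => ?_⟩
  · have h3 : ∀ α : Fin r → ℕ, ∑ j, (α j : ℚ) • csts.mkQ (g j) =
        csts.mkQ (∑ j, (α j : ℚ) • g j) := by
      intro α
      rw [map_sum]
      exact Finset.sum_congr rfl fun j _ => (map_smul _ _ _).symm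
    rw [h3, h3, Submodule.mkQ_apply, Submodule.mkQ_apply, Submodule.Quotient.eq]
    refine ⟨c, fun z => ?_⟩
    have h4 : ∀ α : Fin r → ℕ, (∑ j, (α j : ℚ) • g j) z = ∑ j, (α j : ℂ) * g j z := by
      intro α
      rw [Finset.sum_apply]
      refine Finset.sum_congr rfl fun j _ => ?_
      rw [Pi.smul_apply, Algebra.smul_def]
      simp
    rw [Pi.sub_apply, h4, h4, h z]
    ring
  · have h3 := h2 j j' hj
    rw [Submodule.mkQ_apply, Submodule.mkQ_apply, Submodule.Quotient.eq] at h3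
    obtain ⟨c, hc⟩ := h3
    refine ⟨c, fun z => ?_⟩
    have h4 := hc z
    rw [Pi.sub_apply] at h4
    linear_combination h4

/-! ### the curves -/

variable {K : Type} [Field K] {N r : ℕ}

/-- `G (∑ P_j U_j)` -/
noncomputable def PE (σ : K →+* ℂ) (P : Fin r → Fin (N + 1) → Polynomial ℂ)
    (G : MvPolynomial (Fin (N + 1)) K) : MvPolynomial (Fin r) (Polynomial ℂ) :=
  eval₂ (C.comp (Polynomial.C.comp σ)) (fun i => ∑ j, C (P j i) * X j) G

theorem PE_deg (σ : K →+* ℂ) (P : Fin r → Fin (N + 1) → Polynomial ℂ)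
    {G : MvPolynomial (Fin (N + 1)) K} {d : ℕ} (hG : G.IsHomogeneous d) (α : Fin r →₀ ℕ)
    (hα : α ∈ (PE σ P G).support) : ∑ j, α j = d := by
  have h1 := MvPolynomial.IsHomogeneous.eval₂ hG
    (C.comp (Polynomial.C.comp σ) : K →+* MvPolynomial (Fin r) (Polynomial ℂ))
    (fun i => ∑ j, C (P j i) * X j) (n := 1)
    (fun q => MvPolynomial.isHomogeneous_C (Fin r) _) (fun i => by
      refine MvPolynomial.IsHomogeneous.sum _ _ _ fun j _ => ?_
      simpa using (MvPolynomial.isHomogeneous_C (Fin r) (P j i)).mul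
        (MvPolynomial.isHomogeneous_X (Polynomial ℂ) j))
  rw [one_mul] at h1
  have h2 := h1 (MvPolynomial.mem_support_iff.1 hα)
  rw [Finsupp.weight_apply, Finsupp.sum_fintype _ _ (by simp)] at h2
  simpa using h2

theorem PE_val (σ : K →+* ℂ) (P : Fin r → Fin (N + 1) → Polynomial ℂ)
    (G : MvPolynomial (Fin (N + 1)) K) (u : Fin r → ℂ) (z : ℂ) :
    eval₂ σ (fun i => ∑ j, u j * (P j i).eval z) G =
      ∑ α ∈ (PE σ P G).support, (coeff α (PE σ P G)).eval z * ∏ j, u j ^ (α j) := by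
  have h1 : (eval₂Hom (Polynomial.evalRingHom z) u) (PE σ P G) = eval₂
      ((eval₂Hom (Polynomial.evalRingHom z) u).comp (C.comp (Polynomial.C.comp σ)))
      (fun i => (eval₂Hom (Polynomial.evalRingHom z) u) (∑ j, C (P j i) * X j)) G := by
    unfold PE
    rw [MvPolynomial.hom_eval₂]
  have h2 : (eval₂Hom (Polynomial.evalRingHom z) u).comp (C.comp (Polynomial.C.comp σ)) = σ := by
    ext a
    simp
  have h3 : (fun i => (eval₂Hom (Polynomial.evalRingHom z) u) (∑ j, C (P j i) * X j)) =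
      fun i => ∑ j, u j * (P j i).eval z := by
    funext i
    rw [map_sum]
    refine Finset.sum_congr rfl fun j _ => ?_
    simp [mul_comm]
  rw [h2, h3] at h1
  rw [← h1, coe_eval₂Hom, eval₂_eq']
  rfl

theorem exp_curve (σ : K →+* ℂ) {g : Fin r → ℂ → ℂ} (hg : ∀ j, Differentiable ℂ (g j))
    (P : Fin r → Fin (N + 1) → Polynomial ℂ) {l : Fin r → ℕ}
    (hl : ∀ (α β : Fin r → ℕ) (c : ℂ), ∑ j, α j = ∑ j, β j →
      (∀ z, ∑ j, (α j : ℂ) * g j z = ∑ j, (β j : ℂ) * g j z + c) →
      ∑ j, α j * l j = ∑ j, β j * l j)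
    {G : MvPolynomial (Fin (N + 1)) K} {d : ℕ} (hG : G.IsHomogeneous d)
    (h0 : ∀ z, eval₂ σ (esum g P z) G = 0) (w T : ℂ) :
    eval₂ σ (fun i => ∑ j, (Complex.exp (g j w) * T ^ (l j)) * (P j i).eval w) G = 0 := by
  classical
  set S := (PE σ P G).support with hS
  have key := Pool.Agent.TH735.QM.poly_borel (ι := S)
    (fun α z => ∑ j, ((α.1 j : ℕ) : ℂ) * g j z)
    (fun α => by
      have h1 : (fun z => ∑ j, ((α.1 j : ℕ) : ℂ) * g j z) =
          ∑ j, fun z => ((α.1 j : ℕ) : ℂ) * g j z := by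
        funext z
        rw [Finset.sum_apply]
      rw [h1]
      exact Differentiable.sum fun j _ => (differentiable_const _).mul (hg j))
    (fun α => coeff α.1 (PE σ P G))
    (fun α => Complex.exp (∑ j, ((α.1 j : ℕ) : ℂ) * g j w) * T ^ (∑ j, α.1 j * l j))
    (by
      intro α β c hc
      have h1 := hl (fun j => α.1 j) (fun j => β.1 j) c
        (by rw [PE_deg σ P hG α.1 α.2, PE_deg σ P hG β.1 β.2]) hc
      change Complex.exp (∑ j, ((α.1 j : ℕ) : ℂ) * g j w) * T ^ (∑ j, α.1 j * l j) =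
        Complex.exp c * (Complex.exp (∑ j, ((β.1 j : ℕ) : ℂ) * g j w) *
          T ^ (∑ j, β.1 j * l j))
      rw [h1, hc w, Complex.exp_add]
      ring)
    (by
      intro z
      have h1 := h0 z
      have h2 : esum g P z = fun i => ∑ j, Complex.exp (g j z) * (P j i).eval z := rfl
      rw [h2, PE_val σ P G (fun j => Complex.exp (g j z)) z, ← Finset.sum_coe_sort] at h1
      rw [← h1]
      refine Finset.sum_congr rfl fun α _ => ?_
      congr 1
      rw [Complex.exp_sum]
      exact Finset.prod_congr rfl fun j _ => Complex.exp_nat_mul _ _)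
  have h1 := congrArg (Polynomial.eval w) key
  rw [Polynomial.eval_finsetSum, Polynomial.eval_zero] at h1
  rw [PE_val σ P G (fun j => Complex.exp (g j w) * T ^ (l j)) w, ← Finset.sum_coe_sort, ← h1]
  refine Finset.sum_congr rfl fun α _ => ?_
  rw [Polynomial.eval_mul, Polynomial.eval_C, mul_comm]
  congr 1
  rw [Complex.exp_sum, ← Finset.prod_pow_eq_pow_sum, ← Finset.prod_mul_distrib]
  refine Finset.prod_congr rfl fun j _ => ?_
  rw [Complex.exp_nat_mul, mul_pow, ← pow_mul, mul_comm (l j)]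

/-- zeros of entire functions are isolated -/
theorem nz_near {h : ℂ → ℂ} (hh : Differentiable ℂ h) (hne : ∃ w, h w ≠ 0) (z0 : ℂ) :
    ∀ᶠ w in 𝓝[≠] z0, h w ≠ 0 := by
  rcases (hh.analyticAt z0).eventually_eq_zero_or_eventually_ne_zero with h1 | h1
  · exfalso
    obtain ⟨w, hw⟩ := hne
    apply hw
    have h2 : AnalyticOnNhd ℂ h Set.univ := fun z _ => hh.analyticAt z
    have h3 := h2.eqOn_zero_of_preconnected_of_eventuallyEq_zero isPreconnected_univ
      (Set.mem_univ z0) h1
    exact h3 (Set.mem_univ w)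
  · exact h1

theorem expSum_of_noRat [NumberField K] (σ : K →+* ℂ)
    {I I' : Ideal (MvPolynomial (Fin (N + 1)) K)} (hno : NoRat σ I I') : ExpSum σ I I' := by
  classical
  intro r g P hg hI hnc
  by_contra hcon
  push Not at hcon
  obtain ⟨z0, hz0⟩ := hcon
  unfold OnI at hz0
  push Not at hz0
  obtain ⟨G', hG', ⟨d', hd'⟩, hz0⟩ := hz0
  obtain ⟨l, hl1, hl2⟩ := exp_weights g
  set f : ℂ → Fin (N + 1) → ℂ := esum g P with hf
  have hfd : ∀ i, Differentiable ℂ fun z => f z i := by
    intro i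
    have h1 : (fun z => f z i) = ∑ j, fun z => Complex.exp (g j z) * (P j i).eval z := by
      funext z
      rw [Finset.sum_apply]
      rfl
    rw [h1]
    exact Differentiable.sum fun j _ => (hg j).cexp.mul (P j i).differentiable
  have hfd' : Differentiable ℂ fun z => eval₂ σ (f z) G' := by
    have h1 : (fun z => eval₂ σ (f z) G') = fun z => eval (f z) (MvPolynomial.map σ G') := by
      funext z
      rw [eval_map]
    rw [h1]
    have h2 : (fun z => eval (f z) (MvPolynomial.map σ G')) =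
        fun z => ∑ α ∈ (MvPolynomial.map σ G').support, coeff α (MvPolynomial.map σ G') *
          ∏ i, f z i ^ α i := by
      funext z
      rw [eval_eq']
    rw [h2]
    refine Differentiable.fun_sum fun α _ => (differentiable_const _).mul ?_
    exact Differentiable.fun_finsetProd fun i _ => (hfd i).pow _
  -- the curves in `T`
  have hT : ∀ w, ∀ G ∈ I, (∃ d, G.IsHomogeneous d) → eval₂ (Polynomial.C.comp σ)
      (fun i => ∑ j, Polynomial.C (Complex.exp (g j w) * (P j i).eval w) *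
        Polynomial.X ^ (l j)) G = 0 := by
    rintro w G hG ⟨d, hd⟩
    apply Polynomial.funext
    intro T
    rw [eval₂_eval, Polynomial.eval_zero]
    rw [← exp_curve σ hg P hl1 hd (fun z => hI z G hG ⟨d, hd⟩) w T]
    congr 1
    funext i
    rw [Polynomial.eval_finsetSum]
    refine Finset.sum_congr rfl fun j _ => ?_
    simp only [Polynomial.eval_mul, Polynomial.eval_C, Polynomial.eval_pow, Polynomial.eval_X]
    ring
  -- the polynomial vectors
  have hk : ∀ j j', ∃ c : ℂ, l j = l j' → ∀ z, g j z = g j' z + c := by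
    intro j j'
    by_cases h : l j = l j'
    · obtain ⟨c, hc⟩ := hl2 j j' h
      exact ⟨c, fun _ => hc⟩
    · exact ⟨0, fun h' => absurd h' h⟩
  choose k hk using hk
  set R : Fin r → Fin (N + 1) → Polynomial ℂ := fun j0 i =>
    ∑ j ∈ Finset.univ.filter (fun j => l j = l j0), Polynomial.C (Complex.exp (k j j0)) * P j i
    with hR
  have hRv : ∀ j0 i w, ∑ j ∈ Finset.univ.filter (fun j => l j = l j0),
      Complex.exp (g j w) * (P j i).eval w = Complex.exp (g j0 w) * (R j0 i).eval w := by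
    intro j0 i w
    rw [hR, Polynomial.eval_finsetSum, Finset.mul_sum]
    refine Finset.sum_congr rfl fun j hj => ?_
    rw [hk j j0 (Finset.mem_filter.1 hj).2 w, Complex.exp_add, Polynomial.eval_mul,
      Polynomial.eval_C]
    ring
  -- the key property of the points outside of `Z`
  have hkey : ∀ w, eval₂ σ (f w) G' ≠ 0 → f w ≠ 0 → ∃ j0, (∃ i, (R j0 i).eval w ≠ 0) ∧
      ∀ i i', f w i * (R j0 i').eval w = f w i' * (R j0 i).eval w := by
    intro w hw hfw
    set p : Fin (N + 1) → Polynomial ℂ := fun i =>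
      ∑ j, Polynomial.C (Complex.exp (g j w) * (P j i).eval w) * Polynomial.X ^ (l j) with hp
    have hp1 : ∀ i, (p i).eval 1 = f w i := by
      intro i
      rw [hp, Polynomial.eval_finsetSum]
      refine Finset.sum_congr rfl fun j _ => ?_
      simp
    have hpn : ∀ i n, (p i).coeff n = ∑ j ∈ Finset.univ.filter (fun j => l j = n),
        Complex.exp (g j w) * (P j i).eval w := by
      intro i n
      rw [hp, Polynomial.finsetSum_coeff, Finset.sum_filter]
      refine Finset.sum_congr rfl fun j _ => ?_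
      rw [Polynomial.coeff_C_mul_X_pow]
      by_cases h : l j = n
      · rw [if_pos h, if_pos h.symm]
      · rw [if_neg h, if_neg (Ne.symm h)]
    have hcst : ∀ i i' m n, (p i).coeff m * (p i').coeff n =
        (p i').coeff m * (p i).coeff n := by
      by_contra hnc'
      push Not at hnc'
      obtain ⟨i, i', m, n, hnc'⟩ := hnc'
      refine hno p ⟨hT w, ⟨G', hG', ⟨d', hd'⟩, fun h0 => hw ?_⟩, i, i', m, n, hnc'⟩
      have h1 := congrArg (Polynomial.eval 1) h0
      rw [eval₂_eval, Polynomial.eval_zero, funext hp1] at h1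
      exact h1
    have hd0 : ¬ ∀ i n, (p i).coeff n = 0 := by
      intro h0
      apply hfw
      funext i
      have h1 : p i = 0 := Polynomial.ext fun n => by
        rw [h0 i n, Polynomial.coeff_zero]
      rw [← hp1, h1, Polynomial.eval_zero, Pi.zero_apply]
    push Not at hd0
    obtain ⟨i0, n, hn⟩ := hd0
    obtain ⟨j0, hj0⟩ : ∃ j0, l j0 = n := by
      by_contra hcon
      push Not at hcon
      apply hn
      rw [hpn, Finset.filter_false_of_mem fun j _ => hcon j, Finset.sum_empty]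
    have hc : ∀ i, (p i).coeff n = Complex.exp (g j0 w) * (R j0 i).eval w := by
      intro i
      rw [hpn, ← hj0]
      exact hRv j0 i w
    refine ⟨j0, ⟨i0, fun h0 => hn ?_⟩, fun i i' => ?_⟩
    · rw [hc, h0, mul_zero]
    · have h1 : f w i * (p i').coeff n = f w i' * (p i).coeff n := by
        rw [← hp1, ← hp1, Polynomial.eval_eq_sum_range' (n := (p i).natDegree +
          (p i').natDegree + 1) (by omega), Polynomial.eval_eq_sum_range' (p := p i')
          (n := (p i).natDegree + (p i').natDegree + 1) (by omega), Finset.sum_mul,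
          Finset.sum_mul]
        refine Finset.sum_congr rfl fun m _ => ?_
        simp only [one_pow, mul_one]
        exact hcst i i' m n
      rw [hc, hc] at h1
      have h2 := Complex.exp_ne_zero (g j0 w)
      apply mul_left_cancel₀ h2
      linear_combination h1
  -- points near `z0`
  obtain ⟨z1, z2, i1, i2, hnc⟩ := hnc
  obtain ⟨i3, z3, hz3⟩ : ∃ i z, f z i ≠ 0 := by
    by_contra hcon
    push Not at hcon
    apply hnc
    rw [hcon i1 z1, hcon i2 z1, zero_mul, zero_mul]
  have e1 : ∀ᶠ w in 𝓝[≠] z0, eval₂ σ (f w) G' ≠ 0 := nz_near hfd' ⟨z0, hz0⟩ z0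
  have e2 : ∀ᶠ w in 𝓝[≠] z0, f w i3 ≠ 0 := nz_near (hfd i3) ⟨z3, hz3⟩ z0
  obtain ⟨j0, hR0, hm⟩ : ∃ j0, (∃ i, R j0 i ≠ 0) ∧
      ∀ i i' w, f w i * (R j0 i').eval w = f w i' * (R j0 i).eval w := by
    by_contra hcon
    push Not at hcon
    have e3 : ∀ᶠ w in 𝓝[≠] z0, ∀ j0, (∃ i, R j0 i ≠ 0) →
        ∃ i i', f w i * (R j0 i').eval w ≠ f w i' * (R j0 i).eval w := by
      rw [Filter.eventually_all]
      intro j0
      by_cases h : ∃ i, R j0 i ≠ 0
      · obtain ⟨i, i', w, hw⟩ := hcon j0 h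
        have h2 := nz_near (h := fun w => f w i * (R j0 i').eval w - f w i' * (R j0 i).eval w)
          (((hfd i).mul (R j0 i').differentiable).sub ((hfd i').mul (R j0 i).differentiable))
          ⟨w, sub_ne_zero.2 hw⟩ z0
        exact h2.mono fun w hw _ => ⟨i, i', sub_ne_zero.1 hw⟩
      · exact Filter.Eventually.of_forall fun w h' => absurd h' h
    obtain ⟨w, ⟨h1, h2⟩, h3⟩ := ((e1.and e2).and e3).exists
    obtain ⟨j0, ⟨i, hi⟩, h4⟩ := hkey w h1 (fun h => h2 (by rw [h, Pi.zero_apply]))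
    obtain ⟨i4, i5, h5⟩ := h3 j0 ⟨i, fun h => hi (by rw [h, Polynomial.eval_zero])⟩
    exact h5 (h4 i4 i5)
  obtain ⟨i4, hi4⟩ := hR0
  -- the rational curve
  have hprop : ∀ w, f w i3 ≠ 0 → (fun i => (R j0 i).eval w) =
      fun i => ((R j0 i3).eval w / f w i3) * f w i := by
    intro w hw
    funext i
    have h1 := hm i3 i w
    field_simp
    linear_combination h1
  have e4 : ∀ᶠ w in 𝓝[≠] z0, (R j0 i4).eval w ≠ 0 :=
    nz_near (R j0 i4).differentiable (by
      by_contra hcon
      push Not at hcon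
      exact hi4 (Polynomial.funext fun w => by rw [hcon w, Polynomial.eval_zero])) z0
  have hgen : ∀ w, f w i3 ≠ 0 → (R j0 i4).eval w ≠ 0 → (R j0 i3).eval w / f w i3 ≠ 0 := by
    intro w hw h1 h2
    apply h1
    have h3 := congrFun (hprop w hw) i4
    simp only [h2, zero_mul] at h3
    exact h3
  have hvan : ∀ Q : Polynomial ℂ, (∀ᶠ w in 𝓝[≠] z0, Q.eval w = 0) → Q = 0 := by
    intro Q hQ
    by_contra hQ0
    have h1 := nz_near Q.differentiable (by
      by_contra hcon
      push Not at hcon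
      exact hQ0 (Polynomial.funext fun w => by rw [hcon w, Polynomial.eval_zero])) z0
    obtain ⟨w, h2, h3⟩ := (hQ.and h1).exists
    exact h3 h2
  refine hno (R j0) ⟨?_, ⟨G', hG', ⟨d', hd'⟩, ?_⟩, ?_⟩
  · rintro G hG ⟨d, hd⟩
    apply hvan
    filter_upwards [e2] with w hw
    rw [eval₂_eval, hprop w hw, eval₂_smul_homog σ _ (f w) hd, hI w G hG ⟨d, hd⟩, mul_zero]
  · intro h0
    obtain ⟨w, ⟨h1, h2⟩, h3⟩ := ((e1.and e2).and e4).exists
    have h4 := congrArg (Polynomial.eval w) h0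
    rw [eval₂_eval, Polynomial.eval_zero, hprop w h2, eval₂_smul_homog σ _ (f w) hd'] at h4
    exact mul_ne_zero (pow_ne_zero _ (hgen w h2 h3)) h1 h4
  · rw [nc_iff]
    by_contra hcon
    push Not at hcon
    -- the minors of `f` are zero
    apply hnc
    have hid : ∀ h : ℂ → ℂ, Differentiable ℂ h → (∀ᶠ w in 𝓝[≠] z0, h w = 0) → ∀ w, h w = 0 := by
      intro h hh h0
      by_contra hne
      push Not at hne
      obtain ⟨w, h1, h2⟩ := (h0.and (nz_near hh hne z0)).exists
      exact h2 h1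
    have h1 : ∀ w w', (f w i3 ≠ 0 ∧ (R j0 i4).eval w ≠ 0) →
        (f w' i3 ≠ 0 ∧ (R j0 i4).eval w' ≠ 0) → f w i1 * f w' i2 = f w i2 * f w' i1 := by
      rintro w w' ⟨h1, h2⟩ ⟨h3, h4⟩
      have h5 := hcon i1 i2 w w'
      rw [congrFun (hprop w h1) i1, congrFun (hprop w h1) i2, congrFun (hprop w' h3) i1,
        congrFun (hprop w' h3) i2] at h5
      have h6 := mul_ne_zero (hgen w h1 h2) (hgen w' h3 h4)
      apply mul_left_cancel₀ h6
      linear_combination h5
    have e5 := e2.and e4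
    have h2 : ∀ w, (f w i3 ≠ 0 ∧ (R j0 i4).eval w ≠ 0) → ∀ w',
        f w i1 * f w' i2 = f w i2 * f w' i1 := by
      intro w hw w'
      refine sub_eq_zero.1 (hid (fun w' => f w i1 * f w' i2 - f w i2 * f w' i1)
        (((hfd i2).const_mul _).sub ((hfd i1).const_mul _)) ?_ w')
      filter_upwards [e5] with w' hw'
      exact sub_eq_zero.2 (h1 w w' hw hw')
    refine sub_eq_zero.1 (hid (fun w => f w i1 * f z2 i2 - f w i2 * f z2 i1)
      (((hfd i1).mul_const _).sub ((hfd i2).mul_const _)) ?_ z1)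
    filter_upwards [e5] with w hw
    exact sub_eq_zero.2 (h2 w hw z2)

theorem noRat_of_expSum [NumberField K] (σ : K →+* ℂ)
    {I I' : Ideal (MvPolynomial (Fin (N + 1)) K)} (h : ExpSum σ I I') : NoRat σ I I' := by
  rintro p ⟨hI, ⟨G', hG', hd', h0⟩, hnc⟩
  have he : ∀ z, esum (fun (_ : Fin 1) (_ : ℂ) => (0 : ℂ)) (fun _ => p) z =
      fun i => (p i).eval z := by
    intro z
    funext i
    simp [esum]
  have h1 := h 1 (fun _ _ => 0) (fun _ => p) (fun _ => differentiable_const _) (fun z => by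
    rw [he]
    intro G hG hd
    rw [← eval₂_eval, hI G hG hd, Polynomial.eval_zero]) (by
    obtain ⟨j, k, u, v, hjk⟩ := (nc_iff p).1 hnc
    refine ⟨u, v, j, k, ?_⟩
    rw [he, he]
    exact hjk)
  apply h0
  apply Polynomial.funext
  intro z
  have h2 := h1 z G' hG' hd'
  rw [he] at h2
  rw [eval₂_eval, h2, Polynomial.eval_zero]

end Pool.Agent.Y719.SU
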