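import Pool.Agent.Y719.SU.HtMain
import Pool.Agent.Y719.SU.Exp

/-!
Short sums of units on projective varieties without rational curves: the equivalence.
-/

set_option autoImplicit false

namespace Pool.Agent.Y719.SU

open Filter MvPolynomial NumberField Height
open scoped LinearAlgebra.Projectivization
open Pool.Agent.TH143.HE (RCur eval₂_smul_homog eval₂_eval nc_iff)

variable {K : Type} [Field K] [NumberField K] {N : ℕ}

section

omit [NumberField K]

theorem onI_smul {A : Type} [CommRing A] {φ : K →+* A}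
    {I : Ideal (MvPolynomial (Fin (N + 1)) K)} {x : Fin (N + 1) → A} (h : OnI φ I x) (a : A) :
    OnI φ I (fun j => a * x j) := by
  rintro G hG ⟨d, hd⟩
  rw [eval₂_smul_homog _ a x hd, h G hG ⟨d, hd⟩, mul_zero]

theorem mem_pts {L : Type} [Field L] [Algebra K L] {I : Ideal (MvPolynomial (Fin (N + 1)) K)}
    {x : Fin (N + 1) → L} (hx : x ≠ 0) :
    Projectivization.mk L x hx ∈ Pts L I ↔ OnI (algebraMap K L) I x := by
  obtain ⟨a, ha⟩ := Projectivization.exists_smul_eq_mk_rep L x hx
  have h1 : (Projectivization.mk L x hx).rep = fun j => (a : L) * x j := by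
    rw [← ha]
    rfl
  constructor
  · intro h
    have h2 : OnI (algebraMap K L) I (Projectivization.mk L x hx).rep := h
    rw [h1] at h2
    have h3 := onI_smul h2 (a : L)⁻¹
    have h4 : (fun j => (a : L)⁻¹ * ((a : L) * x j)) = x := by
      funext j
      rw [inv_mul_cancel_left₀ a.ne_zero]
    rwa [h4] at h3
  · intro h
    change OnI (algebraMap K L) I (Projectivization.mk L x hx).rep
    rw [h1]
    exact onI_smul h _

end

/-- the Northcott property in projective space -/
theorem northcott (L : Type) [Field L] [NumberField L] (B : ℝ) :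
    {P : ℙ L (Fin (N + 1) → L) | ∃ (x : Fin (N + 1) → L) (h : x ≠ 0),
      P = Projectivization.mk L x h ∧ logHeight x ≤ B}.Finite := by
  classical
  have h1 : {a : L | mulHeight₁ a ≤ Real.exp B}.Finite :=
    NumberField.finite_setOfPred_mulHeight₁_le L _
  have h3 : {y : Fin (N + 1) → L | ∀ i, mulHeight₁ (y i) ≤ Real.exp B}.Finite := by
    have := Set.Finite.pi' (fun _ : Fin (N + 1) => h1)
    simpa using this
  refine (h3.biUnion (t := fun y => {P | ∃ (h : y ≠ 0), P = Projectivization.mk L y h})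
    ?_).subset ?_
  · intro y _
    apply Set.Subsingleton.finite
    rintro P ⟨h, rfl⟩ Q ⟨h', rfl⟩
    rfl
  · rintro P ⟨x, h, rfl, hx⟩
    obtain ⟨i0, hi0⟩ := Function.ne_iff.1 h
    simp only [Pi.zero_apply] at hi0
    rw [Set.mem_iUnion₂]
    have hy0 : (fun i => x i / x i0) ≠ 0 := by
      intro h0
      have := congrFun h0 i0
      simp only [Pi.zero_apply] at this
      rw [div_self hi0] at this
      exact one_ne_zero this
    refine ⟨fun i => x i / x i0, fun i => ?_, hy0, ?_⟩
    · rw [mulHeight₁_div_eq_mulHeight]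
      have h4 : ![x i, x i0] = x ∘ ![i, i0] := by
        funext j
        fin_cases j <;> rfl
      rw [h4]
      refine (mulHeight_comp_le _ _).trans ?_
      rw [mulHeight_exp]
      exact Real.exp_le_exp.2 hx
    · rw [Projectivization.mk_eq_mk_iff']
      refine ⟨x i0, ?_⟩
      funext i
      rw [Pi.smul_apply, smul_eq_mul, mul_div_cancel₀ _ hi0]

variable {I I' : Ideal (MvPolynomial (Fin (N + 1)) K)}

theorem ht_of_noRat (h : NoRatNF I I') : HtBound I I' := by
  intro L _ _ _ Γ hΓ r
  obtain ⟨C, hC⟩ := ht_bound I I' (h L) Γ hΓ r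
  refine ⟨C, fun u v hne hp => hC u v hne ((mem_pts hne).1 hp.1) fun hc => hp.2 ?_⟩
  exact (mem_pts hne).2 hc

theorem fin_of_ht (h : HtBound I I') : FinBound I I' := by
  intro L _ _ _ Γ hΓ r B
  obtain ⟨C, hC⟩ := h L Γ hΓ r
  refine (northcott L (max C 0 * (1 + B))).subset ?_
  rintro P ⟨hP, u, v, hne, rfl, hv⟩
  refine ⟨ssum u v, hne, rfl, (hC u v hne hP).trans ?_⟩
  have h0 := logHeight_nonneg (fun q : Fin r × Fin (N + 1) => v q.1 q.2)
  calc C * (1 + logHeight (fun q : Fin r × Fin (N + 1) => v q.1 q.2))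
      ≤ max C 0 * (1 + logHeight (fun q : Fin r × Fin (N + 1) => v q.1 q.2)) :=
        mul_le_mul_of_nonneg_right (le_max_left _ _) (by linarith)
    _ ≤ max C 0 * (1 + B) := mul_le_mul_of_nonneg_left (by linarith) (le_max_right _ _)

theorem fin_of_finiteness (h : Finiteness I I') : FinBound I I' := by
  intro L _ _ _ Γ hΓ r B
  exact (h L).subset fun P hP => hP.1

theorem two_pow_inj (L : Type) [Field L] [NumberField L] :
    Function.Injective fun m : ℕ => (2 : L) ^ m := by
  intro m n h
  have h1 : (((2 : ℕ) ^ m : ℕ) : L) = (((2 : ℕ) ^ n : ℕ) : L) := by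
    push_cast
    exact h
  exact Nat.pow_right_injective le_rfl (Nat.cast_injective h1)

theorem roots_fin {L : Type} [Field L] [NumberField L] {q : Polynomial L} (hq : q ≠ 0) :
    {m : ℕ | q.eval ((2 : L) ^ m) = 0}.Finite :=
  (Polynomial.finite_setOfPred_isRoot hq).preimage ((two_pow_inj L).injOn)

theorem noRat_of_fin (h : FinBound I I') : NoRatNF I I' := by
  classical
  intro L _ _ _ p hp
  obtain ⟨h1, ⟨G', hG', hGh, hne⟩, hnc⟩ := hp
  obtain ⟨j0, hj0⟩ : ∃ j, p j ≠ 0 := by
    by_contra hcon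
    push Not at hcon
    obtain ⟨j, k, i, i', h2⟩ := hnc
    apply h2
    rw [hcon j, hcon k]
  set r : ℕ := (Finset.univ.sup fun j => (p j).natDegree) + 1 with hr
  have hdeg : ∀ j, (p j).natDegree < r := fun j =>
    Nat.lt_succ_of_le (Finset.le_sup (f := fun j => (p j).natDegree) (Finset.mem_univ j))
  let two : ℚˣ := Units.mk0 2 two_ne_zero
  let Γ : Subgroup ℚˣ := Subgroup.zpowers two
  have hΓ : Γ.FG := ⟨{two}, by
    rw [Finset.coe_singleton, ← Subgroup.zpowers_eq_closure]⟩
  let u : ℕ → Fin r → Γ := fun m j =>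
    ⟨two ^ (m * (j : ℕ)), Subgroup.pow_mem _ (Subgroup.mem_zpowers _) _⟩
  let v : Fin r → Fin (N + 1) → L := fun j i => (p i).coeff j
  have hsum : ∀ m, ssum (u m) v = fun i => (p i).eval ((2 : L) ^ m) := by
    intro m
    funext i
    rw [Polynomial.eval_eq_sum_range' (hdeg i), ← Fin.sum_univ_eq_sum_range
      (fun k => (p i).coeff k * ((2 : L) ^ m) ^ k)]
    refine Finset.sum_congr rfl fun j _ => ?_
    have h2 : (((two ^ (m * (j : ℕ)) : ℚˣ) : ℚ) : L) = ((2 : L) ^ m) ^ (j : ℕ) := by
      rw [Units.val_pow_eq_pow_val]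
      change (((2 : ℚ) ^ (m * (j : ℕ)) : ℚ) : L) = _
      push_cast
      rw [pow_mul]
    change (((two ^ (m * (j : ℕ)) : ℚˣ) : ℚ) : L) * (p i).coeff j = _
    rw [h2, mul_comm]
  have hfin := h L Γ hΓ r (logHeight (fun q : Fin r × Fin (N + 1) => v q.1 q.2))
  set S := {P ∈ Pts L I \ Pts L I' | ∃ (u : Fin r → Γ)
      (v' : Fin r → Fin (N + 1) → L) (h : ssum u v' ≠ 0), P = Projectivization.mk L _ h ∧
        logHeight (fun q : Fin r × Fin (N + 1) => v' q.1 q.2) ≤
          logHeight (fun q : Fin r × Fin (N + 1) => v q.1 q.2)} with hS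
  set q0 := eval₂ (Polynomial.C.comp (algebraMap K L)) p G' with hq0
  set bad : Set ℕ := {m | (p j0).eval ((2 : L) ^ m) = 0} ∪ {m | q0.eval ((2 : L) ^ m) = 0}
    with hbad
  have hbadf : bad.Finite := (roots_fin hj0).union (roots_fin hne)
  -- the fibres
  have hfib : ∀ P : ℙ L (Fin (N + 1) → L), {m : ℕ | ∃ h : (fun i => (p i).eval ((2 : L) ^ m)) ≠ 0,
      Projectivization.mk L _ h = P}.Finite := by
    intro P
    by_cases hP : ∃ m0 : ℕ, ∃ h : (fun i => (p i).eval ((2 : L) ^ m0)) ≠ 0,
        Projectivization.mk L _ h = P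
    · obtain ⟨m0, h0, rfl⟩ := hP
      obtain ⟨k, hk⟩ := Function.ne_iff.1 h0
      simp only [Pi.zero_apply] at hk
      set x0 : Fin (N + 1) → L := fun i => (p i).eval ((2 : L) ^ m0) with hx0
      obtain ⟨j, hj⟩ : ∃ j, p j * Polynomial.C (x0 k) - Polynomial.C (x0 j) * p k ≠ 0 := by
        by_contra hcon
        push Not at hcon
        obtain ⟨j, j', i, i', h2⟩ := hnc
        apply h2
        have h3 : ∀ j i, (p j).coeff i * x0 k = x0 j * (p k).coeff i := by
          intro j i
          have h4 := congrArg (fun q => Polynomial.coeff q i) (sub_eq_zero.1 (hcon j))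
          simp only [Polynomial.coeff_mul_C, Polynomial.coeff_C_mul] at h4
          exact h4
        have h4 : x0 k ≠ 0 := hk
        apply mul_right_cancel₀ (mul_ne_zero h4 h4)
        calc (p j).coeff i * (p j').coeff i' * (x0 k * x0 k) =
            ((p j).coeff i * x0 k) * ((p j').coeff i' * x0 k) := by ring
          _ = ((p j').coeff i * x0 k) * ((p j).coeff i' * x0 k) := by
              rw [h3 j i, h3 j' i', h3 j' i, h3 j i']
              ring
          _ = _ := by ring
      refine (roots_fin hj).subset ?_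
      rintro m ⟨hm, hmk⟩
      rw [Projectivization.mk_eq_mk_iff'] at hmk
      obtain ⟨c, hc⟩ := hmk
      have h2 : ∀ i, (p i).eval ((2 : L) ^ m) = c * x0 i := fun i => (congrFun hc i).symm
      change Polynomial.eval _ _ = 0
      rw [Polynomial.eval_sub, Polynomial.eval_mul, Polynomial.eval_mul, Polynomial.eval_C,
        Polynomial.eval_C, h2 j, h2 k]
      ring
    · exact Set.finite_empty.subset fun m hm => hP ⟨m, hm⟩
  have hall : (Set.univ : Set ℕ).Finite := by
    refine (hbadf.union (hfin.biUnion fun P _ => hfib P)).subset ?_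
    intro m _
    by_cases hm : m ∈ bad
    · exact Or.inl hm
    · right
      rw [hbad, Set.mem_union, not_or] at hm
      have hx : (fun i => (p i).eval ((2 : L) ^ m)) ≠ 0 := fun h0 => hm.1 (congrFun h0 j0)
      have hx' : ssum (u m) v ≠ 0 := by
        rw [hsum]
        exact hx
      have heq : Projectivization.mk L _ hx' = Projectivization.mk L _ hx := by
        congr 1
        exact hsum m
      rw [Set.mem_iUnion₂]
      refine ⟨Projectivization.mk L _ hx, ?_, hx, rfl⟩
      refine ⟨⟨(mem_pts hx).2 fun G hG hd => ?_, fun hc => ?_⟩, u m, v, hx', heq.symm, le_rfl⟩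
      · have h2 := congrArg (Polynomial.eval ((2 : L) ^ m)) (h1 G hG hd)
        rwa [eval₂_eval, Polynomial.eval_zero] at h2
      · have h2 := (mem_pts hx).1 hc G' hG' hGh
        apply hm.2
        change Polynomial.eval _ _ = 0
        rw [hq0, eval₂_eval]
        exact h2
  exact Set.infinite_univ hall

theorem noRatNF_of (σ : K →+* ℂ) (h : NoRat σ I I') : NoRatNF I I' := by
  intro L _ _ _ p hp
  let _ : Algebra K ℂ := σ.toAlgebra
  have halg : Algebra.IsAlgebraic K L := Algebra.IsAlgebraic.tower_top (K := ℚ) K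
  let e : L →ₐ[K] ℂ := IsAlgClosed.lift
  have he : (e : L →+* ℂ).comp (algebraMap K L) = σ := by
    ext r
    exact e.commutes _
  have h1 := hp.map (e : L →+* ℂ)
  rw [he] at h1
  exact h _ h1

theorem noRat_of_NF (σ : K →+* ℂ) (h : NoRatNF I I') : NoRat σ I I' := by
  let _ : Algebra K ℂ := σ.toAlgebra
  intro p hp
  have hp1 : RCur ((algebraMap K ℂ).comp (RingHom.id K)) I I' p := hp
  obtain ⟨L, _, _, _, p', hp'⟩ := RCur.spec (k := K) (E := ℂ) (RingHom.id K) hp1
  have hchar : CharZero L := charZero_of_injective_algebraMap (algebraMap K L).injective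
  have hfin : FiniteDimensional ℚ L := FiniteDimensional.trans ℚ K L
  have hnf : NumberField L := ⟨⟩
  rw [RingHom.comp_id] at hp'
  exact h L _ hp'

omit [NumberField K] in
theorem eval₂_smul' {A : Type} [CommRing A] (φ : K →+* A) (g : Polynomial A)
    (q : Fin (N + 1) → Polynomial A) {G : MvPolynomial (Fin (N + 1)) K} {d : ℕ}
    (hG : G.IsHomogeneous d) : eval₂ (Polynomial.C.comp φ) (fun j => g * q j) G =
      g ^ d * eval₂ (Polynomial.C.comp φ) q G := eval₂_smul_homog _ g q hG

theorem noRat_of_hyp (σ : K →+* ℂ) (h : Hyperbolic σ I I') : NoRat σ I I' := by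
  classical
  rintro p ⟨h1, ⟨G', hG', ⟨d', hd'⟩, hne⟩, hnc⟩
  obtain ⟨j0, hj0⟩ : ∃ j, p j ≠ 0 := by
    by_contra hcon
    push Not at hcon
    obtain ⟨j, k, i, i', h2⟩ := hnc
    apply h2
    rw [hcon j, hcon k]
  obtain ⟨g, hg⟩ := (IsPrincipalIdealRing.principal (Ideal.span (Set.range p))).principal
  have hg' : Ideal.span (Set.range p) = Ideal.span {g} := hg
  have hdvd : ∀ j, g ∣ p j := by
    intro j
    rw [← Ideal.mem_span_singleton, ← hg']
    exact Ideal.subset_span ⟨j, rfl⟩
  choose q hq using hdvd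
  have hg0 : g ≠ 0 := by
    intro h0
    apply hj0
    rw [hq j0, h0, zero_mul]
  obtain ⟨c, hc⟩ : ∃ c : Fin (N + 1) → Polynomial ℂ, ∑ j, c j * p j = g := by
    have h2 : g ∈ Ideal.span (Set.range p) := by
      rw [hg']
      exact Ideal.mem_span_singleton_self g
    obtain ⟨c, hc⟩ := (Ideal.mem_span_range_iff_exists_fun).1 h2
    exact ⟨c, hc⟩
  have hone : ∑ j, c j * q j = 1 := by
    apply mul_left_cancel₀ hg0
    rw [Finset.mul_sum, mul_one]
    conv_rhs => rw [← hc]
    refine Finset.sum_congr rfl fun j _ => ?_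
    conv_rhs => rw [hq j]
    ring
  have hp : p = fun j => g * q j := funext hq
  have h2 : ∀ G ∈ I, (∃ d, G.IsHomogeneous d) → eval₂ (Polynomial.C.comp σ) q G = 0 := by
    rintro G hG ⟨d, hd⟩
    have h3 := h1 G hG ⟨d, hd⟩
    rw [hp, eval₂_smul' _ _ _ hd] at h3
    exact (mul_eq_zero.1 h3).resolve_left (pow_ne_zero _ hg0)
  have h3 : eval₂ (Polynomial.C.comp σ) q G' ≠ 0 := by
    intro h0
    apply hne
    rw [hp, eval₂_smul' _ _ _ hd', h0, mul_zero]
  apply h3
  apply Polynomial.funext
  intro z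
  rw [eval₂_eval, Polynomial.eval_zero]
  refine h (fun z j => (q j).eval z) ?_ ?_ ?_ ?_ z G' hG' ⟨d', hd'⟩
  · exact differentiable_pi.2 fun j => (q j).differentiable
  · intro z h0
    have h4 := congrArg (Polynomial.eval z) hone
    rw [Polynomial.eval_finsetSum, Polynomial.eval_one] at h4
    apply zero_ne_one (α := ℂ)
    rw [← h4]
    symm
    refine Finset.sum_eq_zero fun j _ => ?_
    rw [Polynomial.eval_mul]
    have h5 : (q j).eval z = 0 := congrFun h0 j
    rw [h5, mul_zero]
  · intro z G hG hd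
    have h4 := congrArg (Polynomial.eval z) (h2 G hG hd)
    rwa [eval₂_eval, Polynomial.eval_zero] at h4
  · by_contra hcon
    push Not at hcon
    obtain ⟨j, k, u, v, h4⟩ := (nc_iff p).1 hnc
    apply h4
    obtain ⟨a, ha⟩ := hcon u v
    have h5 : ∀ j, (q j).eval u = a * (q j).eval v := fun j => congrFun ha j
    rw [hq j, hq k]
    simp only [Polynomial.eval_mul]
    rw [h5 j, h5 k]
    ring

/-- the equivalence -/
theorem main (σ : K →+* ℂ) (I I' : Ideal (MvPolynomial (Fin (N + 1)) K)) :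
    [NoRat σ I I', ExpSum σ I I', NoRatNF I I', HtBound I I', FinBound I I'].TFAE ∧
    (Hyperbolic σ I I' → HtBound I I') ∧ (Finiteness I I' → HtBound I I') := by
  refine ⟨?_, fun h => ht_of_noRat (noRatNF_of σ (noRat_of_hyp σ h)), fun h =>
    ht_of_noRat (noRat_of_fin (fin_of_finiteness h))⟩
  tfae_have 1 → 2 := expSum_of_noRat σ
  tfae_have 2 → 1 := noRat_of_expSum σ
  tfae_have 1 → 3 := noRatNF_of σ
  tfae_have 3 → 4 := ht_of_noRat
  tfae_have 4 → 5 := fin_of_ht
  tfae_have 5 → 3 := noRat_of_fin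
  tfae_have 3 → 1 := noRat_of_NF σ
  tfae_finish

end Pool.Agent.Y719.SU
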