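import Mathlib
import Pool.Agent.H645R3.ABC1

/-!
Heights of vectors over a number field and integral representatives.
-/

set_option autoImplicit false

namespace Pool.Agent.Y719.SU

open NumberField Height Finset

variable (L : Type) [Field L] [NumberField L]

/-- coordinates of an integer are bounded by the conjugates -/
theorem coord : ∃ c : ℝ, 0 ≤ c ∧ ∀ (α : 𝓞 L) (B : ℝ), (∀ σ : L →+* ℂ, ‖σ (α : L)‖ ≤ B) →
    ∀ i, |(((RingOfIntegers.basis L).repr α i : ℤ) : ℝ)| ≤ c * B := by
  classical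
  obtain ⟨c, hc⟩ : ∃ c : ℝ, ∀ (x : 𝓞 L) (i : L →+* ℂ),
      ‖((((integralBasis L).reindex (equivReindex L).symm).repr x i : ℚ) : ℂ)‖
        ≤ c * house (algebraMap (𝓞 L) L x) :=
    ⟨_, fun x i => NumberField.house.basis_repr_norm_le_const_mul_house L x i⟩
  refine ⟨max c 0, le_max_right _ _, ?_⟩
  intro x B hB i
  have hne : Nonempty (L →+* ℂ) := inferInstance
  have hB0 : 0 ≤ B := (norm_nonneg _).trans (hB (Classical.arbitrary _))
  have h := hc x ((equivReindex L).symm i)
  have h0 : ((integralBasis L).reindex (equivReindex L).symm).repr (x : L)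
      ((equivReindex L).symm i) = (integralBasis L).repr (algebraMap (𝓞 L) L x) i := by
    rw [Module.Basis.repr_reindex_apply]
    simp
  rw [h0, integralBasis_repr_apply] at h
  have h1 : ‖(((algebraMap ℤ ℚ) ((RingOfIntegers.basis L).repr x i) : ℚ) : ℂ)‖
      = |(((RingOfIntegers.basis L).repr x i : ℤ) : ℝ)| := by
    simp
  rw [h1] at h
  have h2 : house (algebraMap (𝓞 L) L x) ≤ B := by
    unfold house
    rw [pi_norm_le_iff_of_nonneg hB0]
    intro σ
    exact hB σ
  refine h.trans ?_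
  calc c * house (algebraMap (𝓞 L) L x) ≤ max c 0 * house (algebraMap (𝓞 L) L x) :=
        mul_le_mul_of_nonneg_right (le_max_left _ _) (house_nonneg _)
    _ ≤ max c 0 * B := mul_le_mul_of_nonneg_left h2 (le_max_right _ _)

variable {L}

/-- an integral vector which is proportional to a given vector -/
theorem exists_int_rep {ι : Type} [Fintype ι] (v : ι → L) (hv : v ≠ 0) :
    ∃ (a : L) (y : ι → 𝓞 L), a ≠ 0 ∧ (∀ i, (y i : L) = a * v i) ∧
      ∀ i (φ : L →+* ℂ), ‖φ (y i : L)‖ ≤ mulHeight v ^ (Fintype.card ι + 1) := by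
  classical
  obtain ⟨i0, hi0⟩ := Function.ne_iff.1 hv
  simp only [Pi.zero_apply] at hi0
  have hH : 1 ≤ mulHeight v := one_le_mulHeight v
  have hq : ∀ i, mulHeight₁ (v i / v i0) ≤ mulHeight v := by
    intro i
    rw [mulHeight₁_div_eq_mulHeight]
    have h4 : ![v i, v i0] = v ∘ ![i, i0] := by
      funext j
      fin_cases j <;> rfl
    rw [h4]
    exact mulHeight_comp_le _ _
  choose n hn0 hn hint using fun i => exists_nat_le_mulHeight₁ (v i / v i0)
  have hD0 : ((∏ i, n i : ℕ) : L) ≠ 0 := by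
    rw [Nat.cast_ne_zero]
    exact Finset.prod_ne_zero_iff.2 fun i _ => hn0 i
  have hint' : ∀ i, IsIntegral ℤ (((∏ i, n i : ℕ) : L) * (v i / v i0)) := by
    intro i
    rw [← Finset.mul_prod_erase _ _ (Finset.mem_univ i)]
    push_cast
    have h1 : (n i : L) * (∏ x ∈ Finset.univ.erase i, (n x : L)) * (v i / v i0) =
        (∏ x ∈ Finset.univ.erase i, (n x : L)) * ((n i : L) * (v i / v i0)) := by ring
    rw [h1]
    refine IsIntegral.mul (IsIntegral.prod _ fun x _ => ?_) (hint i)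
    have h2 := isIntegral_algebraMap (R := ℤ) (A := L) (x := (n x : ℤ))
    simpa using h2
  refine ⟨((∏ i, n i : ℕ) : L) / v i0, fun i => ⟨_, hint' i⟩, div_ne_zero hD0 hi0, fun i => ?_,
    fun i φ => ?_⟩
  · change ((∏ i, n i : ℕ) : L) * (v i / v i0) = _
    ring
  · change ‖φ (((∏ i, n i : ℕ) : L) * (v i / v i0))‖ ≤ _
    rw [map_mul, norm_mul, map_natCast, Complex.norm_natCast, pow_succ]
    refine mul_le_mul ?_ ?_ (norm_nonneg _) (by positivity)
    · push_cast
      calc ∏ i, (n i : ℝ) ≤ ∏ _i : ι, mulHeight v :=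
            Finset.prod_le_prod (fun i _ => Nat.cast_nonneg _) fun i _ => (hn i).trans (hq i)
        _ = mulHeight v ^ Fintype.card ι := by
            rw [Finset.prod_const, Finset.card_univ]
    · refine le_trans ?_ (hq i)
      exact H645.ABC.place_le L (v i / v i0) (InfinitePlace.mk φ)

/-- the height of an integral vector -/
theorem height_int_le {ι : Type} [Fintype ι] (z : ι → 𝓞 L)
    (hz : (fun i => (z i : L)) ≠ 0) (B : ℝ)
    (hB : ∀ i (φ : L →+* ℂ), ‖φ (z i : L)‖ ≤ B) :
    mulHeight (fun i => (z i : L)) ≤ B ^ (Module.finrank ℚ L) := by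
  classical
  obtain ⟨i0, hi0⟩ := Function.ne_iff.1 hz
  have hne : Nonempty ι := ⟨i0⟩
  have hB0 : 0 ≤ B := by
    have hne : Nonempty (L →+* ℂ) := inferInstance
    exact (norm_nonneg _).trans (hB i0 (Classical.arbitrary _))
  rw [NumberField.mulHeight_eq hz]
  have hz' : z ≠ 0 := by
    intro h0
    apply hz
    funext i
    rw [h0]
    simp
  have h1 := absNorm_mul_finprod_finitePlace_eq_one hz'
  have h2 : (1 : ℝ) ≤ ((Ideal.span (Set.range z)).absNorm : ℝ) := by
    have h3 : (Ideal.span (Set.range z)).absNorm ≠ 0 := by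
      intro h0
      rw [h0, Nat.cast_zero, zero_mul] at h1
      exact zero_ne_one h1
    exact_mod_cast Nat.one_le_iff_ne_zero.2 h3
  have h4 : ∏ᶠ v : FinitePlace L, ⨆ i, v ((z i : 𝓞 L) : L) ≤ 1 := by
    by_contra hcon
    push Not at hcon
    have h5 : 1 < ((Ideal.span (Set.range z)).absNorm : ℝ) *
        ∏ᶠ v : FinitePlace L, ⨆ i, v ((z i : 𝓞 L) : L) :=
      lt_of_lt_of_le hcon (le_mul_of_one_le_left (by linarith) h2)
    exact absurd h1 (ne_of_gt h5)
  have h5 : (∏ v : InfinitePlace L, (⨆ i, v ((z i : 𝓞 L) : L)) ^ v.mult) ≤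
      B ^ (Module.finrank ℚ L) := by
    rw [← InfinitePlace.sum_mult_eq, ← Finset.prod_pow_eq_pow_sum]
    refine Finset.prod_le_prod (fun v _ => ?_) fun v _ => ?_
    · exact pow_nonneg (Real.iSup_nonneg fun i => apply_nonneg v _) _
    · refine pow_le_pow_left₀ (Real.iSup_nonneg fun i => apply_nonneg v _) ?_ _
      refine ciSup_le fun i => ?_
      rw [← InfinitePlace.norm_embedding_eq]
      exact hB i _
  have h6 : 0 ≤ ∏ v : InfinitePlace L, (⨆ i, v ((z i : 𝓞 L) : L)) ^ v.mult :=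
    Finset.prod_nonneg fun v _ => pow_nonneg (Real.iSup_nonneg fun i => apply_nonneg v _) _
  calc _ ≤ (∏ v : InfinitePlace L, (⨆ i, v ((z i : 𝓞 L) : L)) ^ v.mult) * 1 :=
        mul_le_mul_of_nonneg_left h4 h6
    _ ≤ _ := by rw [mul_one]; exact h5

end Pool.Agent.Y719.SU
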