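import Pool.Agent.Y719.SU.Curve
import Pool.Agent.Y719.SU.Def
import Pool.Agent.Y719.SU.Ht
import Pool.Agent.TH551.SU.Ht

/-!
The height of the points which are short sums of units.
-/

set_option autoImplicit false

namespace Pool.Agent.Y719.SU

open Filter MvPolynomial Pool.Agent.TH932.Germs Pool.Agent.TH551.SU NumberField Height
open Pool.Agent.TH143.HE (RCur eval₂_smul_homog eval₂_eval)

variable {L : Type} [Field L] [NumberField L] {K : Type} [Field K] [Algebra K L] {N : ℕ}

theorem mulHeight_exp {ι : Type} [Fintype ι] (v : ι → L) :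
    mulHeight v = Real.exp (logHeight v) := by
  rw [logHeight_eq_log_mulHeight, Real.exp_log (mulHeight_pos v)]

omit [NumberField L] in
theorem crv_eval_one {r : ℕ} (V : Fin r → Fin (N + 1) → L) (u : Fin r → ℚ) (l : Fin r → ℕ)
    (i : Fin (N + 1)) : (crv V u l i).eval 1 = ∑ j, (u j : L) * V j i := by
  unfold crv
  rw [Polynomial.eval_finsetSum]
  refine Finset.sum_congr rfl fun j _ => ?_
  simp

omit [NumberField L] in
theorem crv_coeff {r : ℕ} (V : Fin r → Fin (N + 1) → L) (u : Fin r → ℚ) (l : Fin r → ℕ)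
    (i : Fin (N + 1)) (n : ℕ) : (crv V u l i).coeff n =
      ∑ j ∈ Finset.univ.filter (fun j => l j = n), (u j : L) * V j i := by
  unfold crv
  rw [Polynomial.finsetSum_coeff, Finset.sum_filter]
  refine Finset.sum_congr rfl fun j _ => ?_
  rw [Polynomial.coeff_C_mul_X_pow]
  by_cases h : l j = n
  · rw [if_pos h, if_pos h.symm]
  · rw [if_neg h, if_neg (Ne.symm h)]

/-- a constant curve has small height -/
theorem small_of_const {r : ℕ} (y : Fin r → Fin (N + 1) → 𝓞 L) (u : Fin r → ℚ)
    (l : Fin r → ℕ) (hu : ∀ j, u j ≠ 0) (M : ℝ) (hM : 1 ≤ M)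
    (hn : ∀ j j', l j = l j' → |((u j / u j').num : ℝ)| ≤ M)
    (hd : ∀ j j', l j = l j' → (((u j / u j').den : ℕ) : ℝ) ≤ M)
    (hy : ∀ j i (φ : L →+* ℂ), ‖φ (y j i : L)‖ ≤ M)
    (hx : (fun i => ∑ j, (u j : L) * (y j i : L)) ≠ 0)
    (hc : ∀ i i' m n, (crv (fun j i => (y j i : L)) u l i).coeff m *
      (crv (fun j i => (y j i : L)) u l i').coeff n =
      (crv (fun j i => (y j i : L)) u l i').coeff m *
      (crv (fun j i => (y j i : L)) u l i).coeff n) :
    logHeight (fun i => ∑ j, (u j : L) * (y j i : L)) ≤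
      Module.finrank ℚ L * (Real.log r + (r + 2) * Real.log M) := by
  classical
  set p := crv (fun j i => (y j i : L)) u l with hp
  obtain ⟨i0, hi0⟩ := Function.ne_iff.1 hx
  simp only [Pi.zero_apply] at hi0
  have hev : ∀ i, (p i).eval 1 = ∑ j, (u j : L) * (y j i : L) := fun i => crv_eval_one _ _ _ _
  obtain ⟨n, hn0⟩ : ∃ n, (p i0).coeff n ≠ 0 := by
    by_contra hcon
    push Not at hcon
    have h1 : p i0 = 0 := Polynomial.ext fun n => by rw [hcon n, Polynomial.coeff_zero]
    apply hi0
    rw [← hev, h1, Polynomial.eval_zero]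
  set J := Finset.univ.filter (fun j : Fin r => l j = n) with hJ
  have hcoeff : ∀ i, (p i).coeff n = ∑ j ∈ J, (u j : L) * (y j i : L) :=
    fun i => crv_coeff _ _ _ _ _
  obtain ⟨j0, hj0⟩ : ∃ j0, l j0 = n := by
    by_contra hcon
    push Not at hcon
    apply hn0
    rw [hcoeff, hJ, Finset.filter_false_of_mem fun j _ => hcon j, Finset.sum_empty]
  have hr : 1 ≤ r := by
    have := j0.2
    omega
  have hlj : ∀ j ∈ J, l j = l j0 := fun j hj => ((Finset.mem_filter.1 hj).2).trans hj0.symm
  set q : Fin r → ℚ := fun j => u j / u j0 with hq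
  set m : Fin r → ℤ := fun j => (∏ j' ∈ J.erase j, ((q j').den : ℤ)) * (q j).num with hm
  set D : ℕ := ∏ j ∈ J, (q j).den with hD
  have hD0 : (D : L) ≠ 0 := by
    rw [Nat.cast_ne_zero, hD]
    exact Finset.prod_ne_zero_iff.2 fun j _ => (q j).den_ne_zero
  have hmD : ∀ j ∈ J, ((m j : ℤ) : ℚ) = (D : ℚ) * q j := by
    intro j hj
    rw [hm, hD, ← Finset.mul_prod_erase J _ hj]
    push_cast
    have h1 : ((q j).den : ℚ) * q j = (q j).num := by
      rw [mul_comm]
      exact Rat.mul_den_eq_num (q j)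
    calc (∏ j' ∈ J.erase j, ((q j').den : ℚ)) * ((q j).num : ℚ) =
        (∏ j' ∈ J.erase j, ((q j').den : ℚ)) * (((q j).den : ℚ) * q j) := by rw [h1]
      _ = _ := by ring
  set z : Fin (N + 1) → 𝓞 L := fun i => ∑ j ∈ J, (m j : 𝓞 L) * y j i with hz
  have huL : ((u j0 : ℚ) : L) ≠ 0 := by exact_mod_cast hu j0
  have hzc : ∀ i, ((z i : 𝓞 L) : L) = ((D : L) / (u j0 : L)) * (p i).coeff n := by
    intro i
    have hzi : ((z i : 𝓞 L) : L) = ∑ j ∈ J, ((m j : ℤ) : L) * ((y j i : 𝓞 L) : L) := by
      change algebraMap (𝓞 L) L (∑ j ∈ J, (m j : 𝓞 L) * y j i) = _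
      rw [map_sum]
      refine Finset.sum_congr rfl fun j _ => ?_
      rw [map_mul, map_intCast]
    rw [hcoeff, hzi, Finset.mul_sum]
    refine Finset.sum_congr rfl fun j hj => ?_
    have h1 : ((m j : ℤ) : L) = (D : L) * ((u j : L) / (u j0 : L)) := by
      have h2 := congrArg (fun x : ℚ => (x : L)) (hmD j hj)
      simp only [hq] at h2
      push_cast at h2
      exact h2
    rw [h1]
    ring
  have hDu : (D : L) / (u j0 : L) ≠ 0 := div_ne_zero hD0 huL
  have hprop : ∀ i, (∑ j, (u j : L) * (y j i : L)) * (p i0).coeff n =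
      (p i).coeff n * ∑ j, (u j : L) * (y j i0 : L) := by
    intro i
    rw [← hev, ← hev, Polynomial.eval_eq_sum_range' (n := (p i).natDegree +
      (p i0).natDegree + 1) (by omega), Polynomial.eval_eq_sum_range' (p := p i0)
      (n := (p i).natDegree + (p i0).natDegree + 1) (by omega), Finset.sum_mul, Finset.mul_sum]
    refine Finset.sum_congr rfl fun k _ => ?_
    simp only [one_pow, mul_one]
    rw [hc i i0 k n, mul_comm]
  have hx0 : (∑ j, (u j : L) * (y j i0 : L)) ≠ 0 := hi0
  have hxz : (fun i => ∑ j, (u j : L) * (y j i : L)) =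
      ((∑ j, (u j : L) * (y j i0 : L)) / (p i0).coeff n / ((D : L) / (u j0 : L))) •
        fun i => ((z i : 𝓞 L) : L) := by
    funext i
    rw [Pi.smul_apply, smul_eq_mul, hzc]
    have h1 := hprop i
    field_simp
    rw [h1]
    ring
  have hz0 : (fun i => ((z i : 𝓞 L) : L)) ≠ 0 := by
    intro h0
    have h1 := congrFun h0 i0
    rw [hzc] at h1
    exact mul_ne_zero hDu hn0 h1
  have hcst : (∑ j, (u j : L) * (y j i0 : L)) / (p i0).coeff n / ((D : L) / (u j0 : L)) ≠ 0 :=
    div_ne_zero (div_ne_zero hx0 hn0) hDu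
  rw [hxz, logHeight_smul_eq_logHeight _ hcst]
  have hM0 : 0 ≤ M := by linarith
  have hr1 : (1 : ℝ) ≤ r := by exact_mod_cast hr
  have hB : ∀ i (φ : L →+* ℂ), ‖φ (z i : L)‖ ≤ r * M ^ (r + 2) := by
    intro i φ
    have h1 : ((z i : 𝓞 L) : L) = ∑ j ∈ J, ((m j : ℤ) : L) * ((y j i : 𝓞 L) : L) := by
      change algebraMap (𝓞 L) L (∑ j ∈ J, (m j : 𝓞 L) * y j i) = _
      rw [map_sum]
      refine Finset.sum_congr rfl fun j _ => ?_
      rw [map_mul, map_intCast]
    rw [h1, map_sum]
    calc ‖∑ j ∈ J, φ (((m j : ℤ) : L) * ((y j i : 𝓞 L) : L))‖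
        ≤ ∑ j ∈ J, ‖φ (((m j : ℤ) : L) * ((y j i : 𝓞 L) : L))‖ := norm_sum_le _ _
      _ ≤ ∑ _j ∈ J, M ^ (r + 2) := by
          refine Finset.sum_le_sum fun j hj => ?_
          rw [map_mul, norm_mul, map_intCast, Complex.norm_intCast]
          have h2 : |((m j : ℤ) : ℝ)| ≤ M ^ (r + 1) := by
            rw [hm]
            push_cast
            rw [abs_mul, pow_succ]
            refine mul_le_mul ?_ (hn j j0 (hlj j hj)) (abs_nonneg _) (by positivity)
            rw [Finset.abs_prod]
            calc ∏ j' ∈ J.erase j, |(((q j').den : ℕ) : ℝ)| ≤ ∏ _j' ∈ J.erase j, M := by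
                  refine Finset.prod_le_prod (fun _ _ => abs_nonneg _) fun j' hj' => ?_
                  rw [Nat.abs_cast]
                  exact hd j' j0 (hlj j' (Finset.mem_of_mem_erase hj'))
              _ = M ^ (J.erase j).card := Finset.prod_const M
              _ ≤ M ^ r := by
                  refine pow_le_pow_right₀ hM ?_
                  calc (J.erase j).card ≤ J.card := Finset.card_erase_le
                    _ ≤ (Finset.univ : Finset (Fin r)).card := Finset.card_filter_le _ _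
                    _ = r := Finset.card_fin r
          calc |((m j : ℤ) : ℝ)| * ‖φ (y j i : L)‖ ≤ M ^ (r + 1) * M :=
                mul_le_mul h2 (hy j i φ) (norm_nonneg _) (by positivity)
            _ = M ^ (r + 2) := by ring
      _ = J.card * M ^ (r + 2) := by rw [Finset.sum_const, nsmul_eq_mul]
      _ ≤ r * M ^ (r + 2) := by
          have h3 : J.card ≤ r := by
            calc J.card ≤ (Finset.univ : Finset (Fin r)).card := Finset.card_filter_le _ _
              _ = r := Finset.card_fin r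
          have h4 : (J.card : ℝ) ≤ r := by exact_mod_cast h3
          exact mul_le_mul_of_nonneg_right h4 (by positivity)
  have h5 := height_int_le z hz0 _ hB
  rw [logHeight_eq_log_mulHeight]
  have hMp : 0 < M := by linarith
  calc Real.log (mulHeight fun i => ((z i : 𝓞 L) : L))
      ≤ Real.log ((r * M ^ (r + 2)) ^ Module.finrank ℚ L) :=
        Real.log_le_log (mulHeight_pos _) h5
    _ = Module.finrank ℚ L * (Real.log r + (r + 2) * Real.log M) := by
        rw [Real.log_pow, Real.log_mul (by positivity) (by positivity), Real.log_pow]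
        push_cast
        ring

end Pool.Agent.Y719.SU
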