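import Pool.Agent.Y719.SU.Germ
import Pool.Agent.TH551.SU.CRV
import Pool.Agent.TH551.SU.CS
import Pool.Agent.TH551.SU.WT
import Pool.Agent.TH551.SU.Sui

/-!
The curve through a germ of points which are short sums of units.
-/

set_option autoImplicit false

namespace Pool.Agent.Y719.SU

open Filter MvPolynomial Pool.Agent.TH932.Germs Pool.Agent.TH551.SU NumberField
open Pool.Agent.TH551.SU.CRV (GSU.prod GSU.pow GSU.ne_zero)

variable {L : Type} [Field L] [NumberField L] {H : ℕ → ℝ} (hH : Tendsto H atTop atTop)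
variable {K : Type} [Field K] [Algebra K L] {r N : ℕ}

theorem repr_mul_cast (x : L) (q : ℚ) (k : Module.Free.ChooseBasisIndex ℤ (𝓞 L)) :
    (integralBasis L).repr (x * (q : L)) k = (integralBasis L).repr x k * q := by
  have h1 : x * (q : L) = q • x := by
    rw [Algebra.smul_def, mul_comm]
    rfl
  rw [h1, map_smul, Finsupp.smul_apply, smul_eq_mul, mul_comm]

theorem curve_zero {s : ℕ} {b : Fin s → ℕ} (hb : ∀ v, (b v).Prime) (hbi : Function.Injective b)
    (U : Fin r → ℕ → ℚ) (hU : ∀ j t, IsSU b (U j t)) (l : Fin r → ℕ)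
    (hl : ∀ α β : Fin r → ℕ, ∑ j, α j = ∑ j, β j →
      (∏ j, gm (U j) ^ (α j)) / (∏ j, gm (U j) ^ (β j)) ∈ KK H hH →
      ∑ j, α j * l j = ∑ j, β j * l j)
    (V : Fin r → Fin (N + 1) → NN L hH) {G : MvPolynomial (Fin (N + 1)) K} {d : ℕ}
    (hG : G.IsHomogeneous d)
    (h0 : ∀ᶠ t in (UU : Filter ℕ),
      eval₂ (algebraMap K L) (fun i => ∑ j, (U j t : L) * ev hH t (V j i)) G = 0) :
    ∀ᶠ t in (UU : Filter ℕ), eval₂ (Polynomial.C.comp (algebraMap K L))
      (crv (fun j i => ev hH t (V j i)) (fun j => U j t) l) G = 0 := by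
  classical
  set P := PN hH V G with hP
  have hg : ∀ α : Fin r →₀ ℕ, ∏ j, gm (U j) ^ (α j) = gm (fun t => ∏ j, U j t ^ (α j)) := by
    intro α
    rw [← gm_prod']
    exact Finset.prod_congr rfl fun j _ => gm_pow _ _
  have hk : ∀ k : Module.Free.ChooseBasisIndex ℤ (𝓞 L), ∀ᶠ t in (UU : Filter ℕ), ∀ n,
      ∑ α ∈ P.support, (if ∑ j, α j * l j = n then
        cf (coeff α P : NN L hH).1 k t * ∏ j, U j t ^ (α j) else 0) = 0 := by
    intro k
    have hsum : ∑ α ∈ P.support, gm (cf (coeff α P : NN L hH).1 k) * ∏ j, gm (U j) ^ (α j) =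
        0 := by
      have h1 : ∀ α : Fin r →₀ ℕ, gm (cf (coeff α P : NN L hH).1 k) * ∏ j, gm (U j) ^ (α j) =
          gm (fun t => cf (coeff α P : NN L hH).1 k t * ∏ j, U j t ^ (α j)) := by
        intro α
        rw [hg, gm_mul]
      rw [Finset.sum_congr rfl fun α _ => h1 α, gm_sum', ← gm_zero, gm_eq]
      filter_upwards [h0] with t ht
      rw [PN_val hH V G (fun j => U j t) t] at ht
      have h2 := congrArg (fun x => (integralBasis L).repr x k) ht
      simp only [map_sum, Finsupp.finsetSum_apply, map_zero, Finsupp.zero_apply] at h2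
      rw [← h2]
      refine Finset.sum_congr rfl fun α _ => ?_
      rw [repr_mul_cast]
      rfl
    have hcs := CS.cs SUI.sui s b hb hbi H hH (Fin r →₀ ℕ) P.support
      (fun α => ⟨gm (cf (coeff α P : NN L hH).1 k), (coeff α P : NN L hH).2 k⟩)
      (fun α => ∏ j, gm (U j) ^ (α j)) (fun α => ∑ j, α j * l j)
      (fun α _ => GSU.prod hb _ _ fun j _ => GSU.pow hb ⟨U j, rfl, hU j⟩ _)
      (fun α hα β hβ h => hl α β (by rw [PN_deg hH V hG α hα, PN_deg hH V hG β hβ]) h) hsum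
    refine poly_ev P.support (fun α t => cf (coeff α P : NN L hH).1 k t * ∏ j, U j t ^ (α j))
      (fun α => ∑ j, α j * l j) ?_
    rw [← hcs]
    refine Finset.sum_congr rfl fun α _ => ?_
    rw [hg]
    rfl
  have hk' := Filter.eventually_all.2 hk
  filter_upwards [hk'] with t ht
  rw [PN_crv]
  ext n
  rw [Polynomial.finsetSum_coeff, Polynomial.coeff_zero]
  simp only [Polynomial.coeff_C_mul_X_pow]
  refine (integralBasis L).ext_elem fun k => ?_
  rw [map_sum, Finsupp.finsetSum_apply, map_zero, Finsupp.zero_apply, ← ht k n]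
  refine Finset.sum_congr rfl fun α _ => ?_
  by_cases hc : ∑ j, α j * l j = n
  · rw [if_pos hc, if_pos hc.symm, repr_mul_cast]
    rfl
  · rw [if_neg hc, if_neg (Ne.symm hc), map_zero, Finsupp.zero_apply]

/-- all forms of the ideal at once -/
theorem curve_all {s : ℕ} {b : Fin s → ℕ} (hb : ∀ v, (b v).Prime) (hbi : Function.Injective b)
    (U : Fin r → ℕ → ℚ) (hU : ∀ j t, IsSU b (U j t)) (l : Fin r → ℕ)
    (hl : ∀ α β : Fin r → ℕ, ∑ j, α j = ∑ j, β j →
      (∏ j, gm (U j) ^ (α j)) / (∏ j, gm (U j) ^ (β j)) ∈ KK H hH →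
      ∑ j, α j * l j = ∑ j, β j * l j)
    (V : Fin r → Fin (N + 1) → NN L hH) (I : Ideal (MvPolynomial (Fin (N + 1)) K))
    (h0 : ∀ t, ∀ G ∈ I, (∃ d, G.IsHomogeneous d) →
      eval₂ (algebraMap K L) (fun i => ∑ j, (U j t : L) * ev hH t (V j i)) G = 0) :
    ∀ᶠ t in (UU : Filter ℕ), ∀ G ∈ I, (∃ d, G.IsHomogeneous d) →
      eval₂ (Polynomial.C.comp (algebraMap K L))
        (crv (fun j i => ev hH t (V j i)) (fun j => U j t) l) G = 0 := by
  classical
  let S : Set (MvPolynomial (Fin (N + 1)) K) := {G | G ∈ I ∧ ∃ d, G.IsHomogeneous d}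
  have hfg : (Submodule.span (MvPolynomial (Fin (N + 1)) K) S).FG := IsNoetherian.noetherian _
  obtain ⟨S0, hS0, hsp⟩ := Submodule.fg_span_iff_fg_span_finset_subset S |>.1 hfg
  have h1 : ∀ᶠ t in (UU : Filter ℕ), ∀ G ∈ S0, eval₂ (Polynomial.C.comp (algebraMap K L))
      (crv (fun j i => ev hH t (V j i)) (fun j => U j t) l) G = 0 := by
    refine (Filter.eventually_all_finset _).2 fun G hG => ?_
    obtain ⟨hGI, d, hd⟩ := hS0 hG
    exact curve_zero hH hb hbi U hU l hl V hd (Eventually.of_forall fun t => h0 t G hGI ⟨d, hd⟩)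
  filter_upwards [h1] with t ht G hG hd
  have h2 : G ∈ Submodule.span (MvPolynomial (Fin (N + 1)) K) (S0 : Set _) := by
    rw [← hsp]
    exact Submodule.subset_span ⟨hG, hd⟩
  have h3 : Ideal.span (S0 : Set (MvPolynomial (Fin (N + 1)) K)) ≤
      RingHom.ker (eval₂Hom (Polynomial.C.comp (algebraMap K L))
        (crv (fun j i => ev hH t (V j i)) (fun j => U j t) l)) := by
    rw [Ideal.span_le]
    intro G hG
    rw [SetLike.mem_coe, RingHom.mem_ker]
    exact ht G hG
  exact RingHom.mem_ker.1 (h3 h2)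

end Pool.Agent.Y719.SU
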