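import Mathlib
import Pool.Agent.TH551.SU.Stms

/-!
Germs of sequences in a number field with coordinates of negligible height, and the substitution of
short sums of units into forms.
-/

set_option autoImplicit false

namespace Pool.Agent.Y719.SU

open Filter MvPolynomial Pool.Agent.TH932.Germs Pool.Agent.TH551.SU NumberField

/-! ### germs -/

theorem gm_sum' {ι : Type} (A : Finset ι) (f : ι → ℕ → ℚ) :
    ∑ i ∈ A, gm (f i) = gm (fun n => ∑ i ∈ A, f i n) := by
  classical
  induction A using Finset.induction_on with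
  | empty => simp [← gm_zero]
  | insert a A ha ih =>
    rw [Finset.sum_insert ha, ih, gm_add]
    congr 1
    funext n
    rw [Finset.sum_insert ha]

theorem gm_prod' {ι : Type} (A : Finset ι) (f : ι → ℕ → ℚ) :
    ∏ i ∈ A, gm (f i) = gm (fun n => ∏ i ∈ A, f i n) := by
  classical
  induction A using Finset.induction_on with
  | empty => simp [← gm_one]
  | insert a A ha ih =>
    rw [Finset.prod_insert ha, ih, gm_mul]
    congr 1
    funext n
    rw [Finset.prod_insert ha]

/-- constant sequences as a homomorphism -/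
noncomputable def gcst : ℚ →+* GG :=
  (Germ.coeRingHom (UU : Filter ℕ)).comp (Pi.constRingHom ℕ ℚ)

theorem gcst_apply (q : ℚ) : gcst q = gm (fun _ => q) := rfl

theorem cst_mem {H : ℕ → ℝ} (hH : Tendsto H atTop atTop) (q : ℚ) :
    gm (fun _ => q) ∈ KK H hH := by
  rw [← gcst_apply, eq_ratCast gcst q]
  exact SubfieldClass.ratCast_mem _ _

/-- vanishing of a polynomial over the germs -/
theorem poly_ev {ι : Type} (A : Finset ι) (q : ι → ℕ → ℚ) (w : ι → ℕ)
    (h : ∑ i ∈ A, Polynomial.C (gm (q i)) * Polynomial.X ^ (w i) = 0) :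
    ∀ᶠ t in (UU : Filter ℕ), ∀ n, ∑ i ∈ A, (if w i = n then q i t else 0) = 0 := by
  classical
  have h1 : ∀ n, ∀ᶠ t in (UU : Filter ℕ), ∑ i ∈ A, (if w i = n then q i t else 0) = 0 := by
    intro n
    have h2 := congrArg (fun p => Polynomial.coeff p n) h
    simp only [Polynomial.finsetSum_coeff, Polynomial.coeff_C_mul_X_pow,
      Polynomial.coeff_zero] at h2
    have h3 : ∀ i, (if n = w i then gm (q i) else 0) =
        gm (fun t => if w i = n then q i t else 0) := by
      intro i
      by_cases hc : n = w i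
      · simp [hc]
      · simp only [if_neg hc, if_neg (Ne.symm hc)]
        rfl
    rw [Finset.sum_congr rfl fun i _ => h3 i, gm_sum', ← gm_zero, gm_eq] at h2
    exact h2
  have h2 : ∀ᶠ t in (UU : Filter ℕ), ∀ n ∈ A.image w,
      ∑ i ∈ A, (if w i = n then q i t else 0) = 0 :=
    (Filter.eventually_all_finset _).2 fun n _ => h1 n
  filter_upwards [h2] with t ht n
  by_cases hn : n ∈ A.image w
  · exact ht n hn
  · refine Finset.sum_eq_zero fun i hi => ?_
    rw [if_neg]
    rintro rfl
    exact hn (Finset.mem_image_of_mem w hi)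

/-! ### negligible sequences in a number field -/

section

variable {L : Type} [Field L] [NumberField L]

/-- the coordinates of a sequence -/
noncomputable def cf (s : ℕ → L) (k : Module.Free.ChooseBasisIndex ℤ (𝓞 L)) : ℕ → ℚ :=
  fun t => (integralBasis L).repr (s t) k

theorem cf_add (s s' : ℕ → L) (k : Module.Free.ChooseBasisIndex ℤ (𝓞 L)) :
    cf (s + s') k = fun t => cf s k t + cf s' k t := by
  funext t
  simp [cf]

theorem cf_mul (s s' : ℕ → L) (k : Module.Free.ChooseBasisIndex ℤ (𝓞 L)) :
    cf (s * s') k = fun t => ∑ i, ∑ j, cf s i t * cf s' j t *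
      (integralBasis L).repr (integralBasis L i * integralBasis L j) k := by
  funext t
  unfold cf
  conv_lhs =>
    rw [Pi.mul_apply, ← (integralBasis L).sum_repr (s t), ← (integralBasis L).sum_repr (s' t),
      Finset.sum_mul_sum]
  rw [map_sum, Finsupp.finsetSum_apply]
  refine Finset.sum_congr rfl fun i _ => ?_
  rw [map_sum, Finsupp.finsetSum_apply]
  refine Finset.sum_congr rfl fun j _ => ?_
  rw [smul_mul_smul_comm, map_smul, Finsupp.smul_apply, smul_eq_mul]

variable {H : ℕ → ℝ} (hH : Tendsto H atTop atTop)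

variable (L) in
/-- sequences with coordinates of negligible height -/
noncomputable def NN : Subring (ℕ → L) where
  carrier := {s | ∀ k, gm (cf s k) ∈ KK H hH}
  mul_mem' := by
    intro s s' hs hs' k
    rw [cf_mul]
    have h1 : gm (fun t => ∑ i, ∑ j, cf s i t * cf s' j t *
        (integralBasis L).repr (integralBasis L i * integralBasis L j) k) =
        ∑ i, ∑ j, gm (cf s i) * gm (cf s' j) *
          gm (fun _ => (integralBasis L).repr (integralBasis L i * integralBasis L j) k) := by
      rw [← gm_sum']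
      refine Finset.sum_congr rfl fun i _ => ?_
      rw [← gm_sum']
      rfl
    rw [h1]
    exact Subfield.sum_mem _ fun i _ => Subfield.sum_mem _ fun j _ =>
      Subfield.mul_mem _ (Subfield.mul_mem _ (hs i) (hs' j)) (cst_mem hH _)
  one_mem' := by
    intro k
    exact cst_mem hH ((integralBasis L).repr 1 k)
  add_mem' := by
    intro s s' hs hs' k
    rw [cf_add]
    exact Subfield.add_mem _ (hs k) (hs' k)
  zero_mem' := by
    intro k
    exact cst_mem hH ((integralBasis L).repr 0 k)
  neg_mem' := by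
    intro s hs k
    have h1 : cf (-s) k = fun t => - cf s k t := by
      funext t
      simp [cf]
    rw [h1]
    exact Subfield.neg_mem _ (hs k)

theorem mem_NN {s : ℕ → L} : s ∈ NN L hH ↔ ∀ k, gm (cf s k) ∈ KK H hH := Iff.rfl

theorem const_mem (a : L) : (fun _ => a) ∈ NN L hH := fun k =>
  cst_mem hH ((integralBasis L).repr a k)

variable {K : Type} [Field K] [Algebra K L]

/-- constants -/
noncomputable def cN : K →+* NN L hH :=
  ((Pi.constRingHom ℕ L).comp (algebraMap K L)).codRestrict (NN L hH)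
    fun a => const_mem hH (algebraMap K L a)

/-- the value at `t` -/
noncomputable def ev (t : ℕ) : NN L hH →+* L := (Pi.evalRingHom (fun _ : ℕ => L) t).comp
  (NN L hH).subtype

theorem ev_cN (t : ℕ) : (ev hH t).comp (cN hH) = algebraMap K L := rfl

variable {r N : ℕ}

/-- `G (∑ V j U_j)` -/
noncomputable def PN (V : Fin r → Fin (N + 1) → NN L hH) (G : MvPolynomial (Fin (N + 1)) K) :
    MvPolynomial (Fin r) (NN L hH) :=
  eval₂ (C.comp (cN hH)) (fun i => ∑ j, C (V j i) * X j) G

theorem PN_hom (V : Fin r → Fin (N + 1) → NN L hH) {G : MvPolynomial (Fin (N + 1)) K} {d : ℕ}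
    (hG : G.IsHomogeneous d) : (PN hH V G).IsHomogeneous d := by
  have h1 := MvPolynomial.IsHomogeneous.eval₂ hG
    (C.comp (cN hH) : K →+* MvPolynomial (Fin r) (NN L hH))
    (fun i => ∑ j, C (V j i) * X j) (n := 1)
    (fun q => MvPolynomial.isHomogeneous_C (Fin r) _) (fun i => by
      refine MvPolynomial.IsHomogeneous.sum _ _ _ fun j _ => ?_
      simpa using (MvPolynomial.isHomogeneous_C (Fin r) (V j i)).mul
        (MvPolynomial.isHomogeneous_X (NN L hH) j))
  rw [one_mul] at h1
  exact h1

theorem PN_deg (V : Fin r → Fin (N + 1) → NN L hH) {G : MvPolynomial (Fin (N + 1)) K} {d : ℕ}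
    (hG : G.IsHomogeneous d) (α : Fin r →₀ ℕ) (hα : α ∈ (PN hH V G).support) :
    ∑ j, α j = d := by
  have h2 := PN_hom hH V hG (MvPolynomial.mem_support_iff.1 hα)
  rw [Finsupp.weight_apply, Finsupp.sum_fintype _ _ (by simp)] at h2
  simpa using h2

theorem PN_map {A : Type} [CommRing A] (ψ : MvPolynomial (Fin r) (NN L hH) →+* A)
    (V : Fin r → Fin (N + 1) → NN L hH) (G : MvPolynomial (Fin (N + 1)) K) :
    ψ (PN hH V G) = eval₂ (ψ.comp (C.comp (cN hH)))
      (fun i => ∑ j, ψ (C (V j i)) * ψ (X j)) G := by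
  unfold PN
  rw [MvPolynomial.hom_eval₂]
  congr 1
  funext i
  simp [map_sum, map_mul]

theorem PN_val (V : Fin r → Fin (N + 1) → NN L hH) (G : MvPolynomial (Fin (N + 1)) K)
    (u : Fin r → ℚ) (t : ℕ) :
    eval₂ (algebraMap K L) (fun i => ∑ j, (u j : L) * ev hH t (V j i)) G =
      ∑ α ∈ (PN hH V G).support, ev hH t (coeff α (PN hH V G)) *
        ((∏ j, u j ^ (α j) : ℚ) : L) := by
  have h1 := PN_map hH (eval₂Hom (ev hH t) fun j => (u j : L)) V G
  have h2 : (eval₂Hom (ev hH t) fun j => ((u j : ℚ) : L)).comp (C.comp (cN hH)) =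
      algebraMap K L := by
    ext a
    simp [ev, cN]
  rw [h2] at h1
  simp only [coe_eval₂Hom, eval₂_C, eval₂_X] at h1
  rw [eval₂_eq'] at h1
  have h3 : (fun i => ∑ j, (u j : L) * ev hH t (V j i)) =
      fun i => ∑ j, ev hH t (V j i) * (u j : L) := by
    funext i
    exact Finset.sum_congr rfl fun j _ => mul_comm _ _
  rw [h3, ← h1]
  refine Finset.sum_congr rfl fun α _ => ?_
  push_cast
  rfl

/-- the curve -/
noncomputable def crv (V : Fin r → Fin (N + 1) → L) (u : Fin r → ℚ) (l : Fin r → ℕ)
    (i : Fin (N + 1)) : Polynomial L :=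
  ∑ j, Polynomial.C ((u j : L) * V j i) * Polynomial.X ^ (l j)

theorem PN_crv (V : Fin r → Fin (N + 1) → NN L hH) (G : MvPolynomial (Fin (N + 1)) K)
    (u : Fin r → ℚ) (l : Fin r → ℕ) (t : ℕ) :
    eval₂ (Polynomial.C.comp (algebraMap K L)) (crv (fun j i => ev hH t (V j i)) u l) G =
      ∑ α ∈ (PN hH V G).support, Polynomial.C (ev hH t (coeff α (PN hH V G)) *
        ((∏ j, u j ^ (α j) : ℚ) : L)) * Polynomial.X ^ (∑ j, α j * l j) := by
  have h1 := PN_map hH (eval₂Hom (Polynomial.C.comp (ev hH t))
    fun j => Polynomial.C (u j : L) * Polynomial.X ^ (l j)) V G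
  have h2 : (eval₂Hom (Polynomial.C.comp (ev hH t))
      fun j => Polynomial.C (u j : L) * Polynomial.X ^ (l j)).comp (C.comp (cN hH)) =
      Polynomial.C.comp (algebraMap K L) := by
    ext a
    simp [ev, cN]
  rw [h2] at h1
  simp only [coe_eval₂Hom, eval₂_C, eval₂_X, RingHom.coe_comp, Function.comp_apply] at h1
  rw [eval₂_eq'] at h1
  have h3 : crv (fun j i => ev hH t (V j i)) u l = fun i => ∑ j, Polynomial.C (ev hH t (V j i)) *
      (Polynomial.C (u j : L) * Polynomial.X ^ (l j)) := by
    funext i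
    unfold crv
    refine Finset.sum_congr rfl fun j _ => ?_
    rw [Polynomial.C_mul]
    ring
  rw [h3, ← h1]
  refine Finset.sum_congr rfl fun α _ => ?_
  simp only [RingHom.comp_apply]
  rw [Polynomial.C_mul, mul_assoc]
  congr 1
  simp only [mul_pow, Finset.prod_mul_distrib, ← pow_mul]
  push_cast
  rw [map_prod, Finset.prod_pow_eq_pow_sum]
  congr 1
  · exact Finset.prod_congr rfl fun j _ => by rw [map_pow]
  · congr 1
    exact Finset.sum_congr rfl fun j _ => mul_comm _ _

end

end Pool.Agent.Y719.SU
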