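import Pool.Agent.Y719.SU.Bound

/-!
The bound of the height of the points which are short sums of units.
-/

set_option autoImplicit false

namespace Pool.Agent.Y719.SU

open Filter MvPolynomial Pool.Agent.TH932.Germs Pool.Agent.TH551.SU NumberField Height
open Pool.Agent.TH143.HE (RCur eval₂_smul_homog eval₂_eval)
open Pool.Agent.TH551.SU.CRV (GSU.ne_zero)

variable {L : Type} [Field L] [NumberField L] {K : Type} [Field K] [Algebra K L] {N : ℕ}

theorem ht_bound (I I' : Ideal (MvPolynomial (Fin (N + 1)) K))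
    (hno : ∀ p : Fin (N + 1) → Polynomial L, ¬ RCur (algebraMap K L) I I' p)
    (Γ : Subgroup ℚˣ) (hΓ : Γ.FG) (r : ℕ) :
    ∃ C : ℝ, ∀ (u : Fin r → Γ) (v : Fin r → Fin (N + 1) → L), ssum u v ≠ 0 →
      OnI (algebraMap K L) I (ssum u v) → ¬ OnI (algebraMap K L) I' (ssum u v) →
      logHeight (ssum u v) ≤
        C * (1 + logHeight (fun q : Fin r × Fin (N + 1) => v q.1 q.2)) := by
  classical
  by_contra hcon
  push Not at hcon
  choose u v hne hI hI' hht using fun t : ℕ => hcon (t : ℝ)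
  obtain ⟨s, b, hb, hbi, hΓb⟩ := Pool.Agent.TH551.SU.Ht.exists_base Γ hΓ
  set hv : ℕ → ℝ := fun t => logHeight (fun q : Fin r × Fin (N + 1) => v t q.1 q.2) with hhv
  set H : ℕ → ℝ := fun t => logHeight (ssum (u t) (v t)) with hHdef
  have hv0 : ∀ t, 0 ≤ hv t := fun t => logHeight_nonneg _
  have hHt : ∀ t : ℕ, (t : ℝ) * (1 + hv t) < H t := hht
  have hH : Tendsto H atTop atTop := by
    refine tendsto_atTop_mono (fun t => ?_) (tendsto_natCast_atTop_atTop (R := ℝ))
    have h1 := hHt t
    have h2 := hv0 t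
    have h3 : (0 : ℝ) ≤ t := Nat.cast_nonneg t
    nlinarith
  have hvne : ∀ t, (fun q : Fin r × Fin (N + 1) => v t q.1 q.2) ≠ 0 := by
    intro t h0
    apply hne t
    funext i
    refine Finset.sum_eq_zero fun j _ => ?_
    have h1 : v t j i = 0 := congrFun h0 (j, i)
    rw [h1, mul_zero]
  choose a y ha hy hyb using fun t => exists_int_rep _ (hvne t)
  set κ : ℕ := Fintype.card (Fin r × Fin (N + 1)) + 1 with hκ
  have hbd : ∀ (c : ℝ), 0 < c → ∀ ε : ℝ, 0 < ε → ∀ᶠ t in (UU : Filter ℕ),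
      c * mulHeight (fun q : Fin r × Fin (N + 1) => v t q.1 q.2) ^ κ ≤ Real.exp (ε * H t) := by
    intro c hc ε hε
    refine ev_of_atTop ?_
    obtain ⟨T, hT⟩ := exists_nat_ge (max (Real.log c) κ / ε)
    filter_upwards [eventually_ge_atTop T] with t ht
    have h1 : max (Real.log c) κ ≤ ε * t := by
      have h2 : (T : ℝ) ≤ t := by exact_mod_cast ht
      rw [div_le_iff₀ hε] at hT
      nlinarith
    have h2 : Real.log c ≤ ε * t := (le_max_left _ _).trans h1
    have h3 : (κ : ℝ) ≤ ε * t := (le_max_right _ _).trans h1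
    have h4 : c * mulHeight (fun q : Fin r × Fin (N + 1) => v t q.1 q.2) ^ κ =
        Real.exp (Real.log c + κ * hv t) := by
      rw [mulHeight_exp, Real.exp_add, Real.exp_log hc, ← Real.exp_nat_mul]
    rw [h4]
    refine Real.exp_le_exp.2 ?_
    have h5 := hHt t
    have h6 := hv0 t
    nlinarith
  have hmem : ∀ j i, (fun t => ((y t (j, i) : 𝓞 L) : L)) ∈ NN L hH := by
    intro j i k
    refine ⟨fun t => (RingOfIntegers.basis L).repr (y t (j, i)) k, fun _ => 1, ?_,
      Negl.one hH, by simp, ?_⟩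
    · intro ε hε
      obtain ⟨c, hc0, hc⟩ := coord L
      filter_upwards [hbd (c + 1) (by linarith) ε hε] with t ht
      refine le_trans ?_ ht
      refine (hc _ _ (fun σ => hyb t (j, i) σ) k).trans ?_
      have h1 : 0 ≤ mulHeight (fun q : Fin r × Fin (N + 1) => v t q.1 q.2) ^ κ :=
        pow_nonneg (mulHeight_pos _).le _
      nlinarith
    · congr 1
      funext t
      have h1 := integralBasis_repr_apply L (y t (j, i)) k
      change (integralBasis L).repr ((y t (j, i) : 𝓞 L) : L) k = _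
      rw [h1]
      simp
  set V : Fin r → Fin (N + 1) → NN L hH :=
    fun j i => ⟨fun t => ((y t (j, i) : 𝓞 L) : L), hmem j i⟩ with hV
  have hVev : ∀ t j i, ev hH t (V j i) = a t * v t j i := fun t j i => hy t (j, i)
  set U : Fin r → ℕ → ℚ := fun j t => ((u t j : ℚˣ) : ℚ) with hU'
  have hU : ∀ j t, IsSU b (U j t) := fun j t => hΓb _ (u t j).2
  have hU0 : ∀ j t, U j t ≠ 0 := fun j t => (u t j : ℚˣ).ne_zero
  have hvec : ∀ t, (fun i => ∑ j, (U j t : L) * ev hH t (V j i)) =
      fun i => a t * ssum (u t) (v t) i := by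
    intro t
    funext i
    unfold ssum
    rw [Finset.mul_sum]
    refine Finset.sum_congr rfl fun j _ => ?_
    rw [hVev]
    ring
  obtain ⟨l, hl1, hl2⟩ := WT.wt H hH r (fun j => gm (U j))
    (fun j => GSU.ne_zero hb ⟨U j, rfl, hU j⟩)
  have hzero := curve_all hH hb hbi U hU l hl1 V I (fun t G hG hd => by
    rw [hvec]
    obtain ⟨d, hd⟩ := hd
    rw [eval₂_smul_homog _ _ _ hd, hI t G hG ⟨d, hd⟩, mul_zero])
  have hrat : ∀ ε : ℝ, 0 < ε → ∀ᶠ t in (UU : Filter ℕ), ∀ j j', l j = l j' →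
      |((U j t / U j' t).num : ℝ)| ≤ Real.exp (ε * H t) ∧
      (((U j t / U j' t).den : ℕ) : ℝ) ≤ Real.exp (ε * H t) := by
    intro ε hε
    refine Filter.eventually_all.2 fun j => Filter.eventually_all.2 fun j' => ?_
    by_cases hc : l j = l j'
    · have h1 := hl2 j j' hc
      rw [gm_div] at h1
      obtain ⟨h2, h3⟩ := (mem_KK_iff hH _).1 h1
      filter_upwards [h2 ε hε, h3 ε hε] with t h4 h5 _
      refine ⟨h4, ?_⟩
      have h6 : |((((U j t / U j' t).den : ℕ) : ℤ) : ℝ)| = (((U j t / U j' t).den : ℕ) : ℝ) := by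
        rw [Int.cast_natCast, Nat.abs_cast]
      rw [← h6]
      exact h5
    · exact Eventually.of_forall fun t h => absurd h hc
  set d := Module.finrank ℚ L with hd
  have hd0 : 0 < d := Module.finrank_pos
  have hdr : (0 : ℝ) < d * (r + 2) := by positivity
  set ε : ℝ := 1 / (4 * (d * (r + 2))) with hε
  have hε0 : 0 < ε := by positivity
  have hlarge : ∀ᶠ t in (UU : Filter ℕ), 2 * (d * Real.log r) + 1 ≤ H t :=
    ev_of_atTop (hH.eventually_ge_atTop _)
  obtain ⟨t, h1, h2, h3, h4⟩ := (hzero.and ((hrat ε hε0).and ((hbd 1 one_pos ε hε0).and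
    hlarge))).exists
  have hlogr : 0 ≤ Real.log r := Real.log_natCast_nonneg r
  have hHt0 : 1 ≤ H t := by
    have : 0 ≤ (d : ℝ) * Real.log r := by positivity
    linarith
  set M : ℝ := Real.exp (ε * H t) with hM
  have hM1 : 1 ≤ M := Real.one_le_exp (by positivity)
  set p := crv (fun j i => ev hH t (V j i)) (fun j => U j t) l with hp
  have hone : ∀ i, (p i).eval 1 = a t * ssum (u t) (v t) i := by
    intro i
    rw [hp, crv_eval_one]
    exact congrFun (hvec t) i
  have hcst : ∀ i i' m n, (p i).coeff m * (p i').coeff n = (p i').coeff m * (p i).coeff n := by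
    by_contra hnc
    push Not at hnc
    obtain ⟨i, i', m, n, hnc⟩ := hnc
    refine hno p ⟨h1, ?_, i, i', m, n, hnc⟩
    have h5 := hI' t
    unfold OnI at h5
    push Not at h5
    obtain ⟨G, hG, ⟨e, he⟩, h6⟩ := h5
    refine ⟨G, hG, ⟨e, he⟩, fun h7 => h6 ?_⟩
    have h8 := congrArg (Polynomial.eval 1) h7
    rw [eval₂_eval, Polynomial.eval_zero] at h8
    have h9 : (fun i => (p i).eval 1) = fun i => a t * ssum (u t) (v t) i := funext hone
    rw [h9, eval₂_smul_homog _ _ _ he] at h8
    exact (mul_eq_zero.1 h8).resolve_left (pow_ne_zero _ (ha t))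
  have hxe : (fun i => ∑ j, (U j t : L) * ((y t (j, i) : 𝓞 L) : L)) =
      a t • ssum (u t) (v t) := by
    have h5 := hvec t
    funext i
    exact congrFun h5 i
  have h6 := small_of_const (fun j i => y t (j, i)) (fun j => U j t) l (fun j => hU0 j t) M hM1
    (fun j j' h => (h2 j j' h).1) (fun j j' h => (h2 j j' h).2)
    (fun j i φ => by
      refine (hyb t (j, i) φ).trans ?_
      rw [one_mul] at h3
      exact h3)
    (by
      rw [hxe]
      exact smul_ne_zero (ha t) (hne t))
    hcst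
  rw [hxe, logHeight_smul_eq_logHeight _ (ha t)] at h6
  have h7 : Real.log M = ε * H t := Real.log_exp _
  rw [h7] at h6
  have h8 : (d : ℝ) * ((r + 2) * (ε * H t)) = H t / 4 := by
    rw [hε]
    field_simp
  have h9 : H t ≤ d * (Real.log r + (r + 2) * (ε * H t)) := h6
  rw [mul_add, h8] at h9
  have h10 : 0 ≤ (d : ℝ) * Real.log r := by positivity
  linarith

end Pool.Agent.Y719.SU
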